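import Pool.Agent.H64.SocEv

set_option autoImplicit false

open Filter

namespace Pool.Agent.H64.Soc

/-- `b` is an end-extension of `a`. -/
def EndExt (a b : Finset ℕ) : Prop := a ⊆ b ∧ ∀ y ∈ b, y ∉ a → ∀ x ∈ a, x < y

theorem EndExt.refl (a : Finset ℕ) : EndExt a a :=
  ⟨Finset.Subset.refl a, fun _ h h' => absurd h h'⟩

theorem EndExt.trans {a b c : Finset ℕ} (h : EndExt a b) (h' : EndExt b c) : EndExt a c := by
  refine ⟨h.1.trans h'.1, fun y hy hya x hx => ?_⟩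
  by_cases hyb : y ∈ b
  · exact h.2 y hyb hya x hx
  · exact h'.2 y hy hyb x (h.1 hx)

theorem EndExt.insert {a : Finset ℕ} {y : ℕ} (h : ∀ x ∈ a, x < y) : EndExt a (insert y a) := by
  refine ⟨Finset.subset_insert _ _, fun z hz hza x hx => ?_⟩
  rw [Finset.mem_insert] at hz
  rcases hz with rfl | hz
  · exact h x hx
  · exact absurd hz hza

section

variable {ι : Type} (U : Ultrafilter ℕ) (Φ : ι → Finset ℕ → Set ℕ)

/-- predicted outputs -/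
def Pred (e : ι) (a : Finset ℕ) : Set ℕ := {z | Ev U (fun b => z ∈ Φ e b) a}

/-- an output outside `B` is predicted -/
def Rk (e : ι) (B a : Finset ℕ) : Prop := Ev U (fun b => ¬ Φ e b ⊆ ↑B) a

/-- critical nodes -/
def Crit (e : ι) (B a : Finset ℕ) : Prop :=
  Pred U Φ e a ⊆ ↑B ∧ ∀ᶠ y in (U : Filter ℕ), ¬ Pred U Φ e (insert y a) ⊆ ↑B

/-- least predicted output outside `B` -/
noncomputable def mm (e : ι) (B b : Finset ℕ) : ℕ := sInf (Pred U Φ e b \ ↑B)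

variable {D : Type} (fn : D → ℕ → ℕ)

/-- the function `fn δ` is the predicted critical function -/
def FP (e : ι) (B : Finset ℕ) (δ : D) (a : Finset ℕ) : Prop :=
  Ev U (fun b => Crit U Φ e B b ∧ ∀ᶠ y in (U : Filter ℕ), fn δ y = mm U Φ e B (insert y b)) a

end

/-- finite conditions on types -/
structure Cond (D : Type) where
  dom : Finset (ℕ × D)
  col : ℕ × D → Fin 3

def Cond.le {D : Type} (T T' : Cond D) : Prop :=
  T.dom ⊆ T'.dom ∧ ∀ p ∈ T.dom, T'.col p = T.col p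

theorem Cond.le_refl {D : Type} (T : Cond D) : T.le T := ⟨Finset.Subset.refl _, fun _ _ => rfl⟩

theorem Cond.le_trans {D : Type} {T T' T'' : Cond D} (h : T.le T') (h' : T'.le T'') : T.le T'' :=
  ⟨h.1.trans h'.1, fun p hp => by rw [h'.2 p (h.1 hp), h.2 p hp]⟩

def Sat {D : Type} (f : ℕ → ℕ → Fin 3) (fn : D → ℕ → ℕ) (T : Cond D) (y : ℕ) : Prop :=
  ∀ p ∈ T.dom, f p.1 (fn p.2 y) = T.col p

/-- `X` is dense below `T` -/
def DenseB {D : Type} (𝒜 : Set (Set ℕ)) (f : ℕ → ℕ → Fin 3) (fn : D → ℕ → ℕ) (X : Set ℕ)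
    (T : Cond D) : Prop :=
  ∀ T' : Cond D, T.le T' → ∀ A ∈ 𝒜, ∃ y ∈ X, y ∈ A ∧ Sat f fn T' y

/-- Winning positions of the one-thread game. -/
inductive Win {D : Type} (𝒜 : Set (Set ℕ)) (f : ℕ → ℕ → Fin 3) (fn : D → ℕ → ℕ) (k : Fin 3)
    (S : Finset ℕ → Prop) : Finset ℕ → Cond D → Prop
  | done (a : Finset ℕ) (T : Cond D) : S a → Win 𝒜 f fn k S a T
  | step (a : Finset ℕ) (T : Cond D) (A : Cond D → Set ℕ) (E : Cond D → ℕ → Finset (ℕ × D))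
      (hA : ∀ T' : Cond D, T.le T' → A T' ∈ 𝒜)
      (hE : ∀ T' : Cond D, T.le T' → ∀ y ∈ A T', Sat f fn T' y → (∀ x ∈ a, x < y) →
        ∀ p ∈ E T' y, p ∈ T'.dom → T'.col p = k)
      (h : ∀ T' : Cond D, T.le T' → ∀ y ∈ A T', Sat f fn T' y → (∀ x ∈ a, x < y) →
        ∀ T'' : Cond D, T'.le T'' → (∀ p ∈ E T' y, p ∈ T''.dom ∧ T''.col p = k) →
          Win 𝒜 f fn k S (insert y a) T'') : Win 𝒜 f fn k S a T

section

variable {D : Type} {𝒜 : Set (Set ℕ)} {f : ℕ → ℕ → Fin 3} {fn : D → ℕ → ℕ} {k : Fin 3}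
    {S : Finset ℕ → Prop}

theorem Win.mono {a : Finset ℕ} {T T' : Cond D} (h : Win 𝒜 f fn k S a T) (hT : T.le T') :
    Win 𝒜 f fn k S a T' := by
  cases h with
  | done a T h => exact .done a T' h
  | step a T A E hA hE h =>
    exact .step a T' A E (fun T'' h'' => hA T'' (Cond.le_trans hT h''))
      (fun T'' h'' => hE T'' (Cond.le_trans hT h''))
      (fun T'' h'' => h T'' (Cond.le_trans hT h''))

theorem Win.mk {a : Finset ℕ} {T : Cond D}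
    (h : ∀ T' : Cond D, T.le T' → ∃ A ∈ 𝒜, ∀ y ∈ A, Sat f fn T' y → (∀ x ∈ a, x < y) →
      ∃ E : Finset (ℕ × D), (∀ p ∈ E, p ∈ T'.dom → T'.col p = k) ∧
        ∀ T'' : Cond D, T'.le T'' → (∀ p ∈ E, p ∈ T''.dom ∧ T''.col p = k) →
          Win 𝒜 f fn k S (insert y a) T'') : Win 𝒜 f fn k S a T := by
  classical
  have h' : ∀ T' : Cond D, ∃ A : Set ℕ, T.le T' → (A ∈ 𝒜 ∧ ∀ y ∈ A, Sat f fn T' y →
      (∀ x ∈ a, x < y) →
      ∃ E : Finset (ℕ × D), (∀ p ∈ E, p ∈ T'.dom → T'.col p = k) ∧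
        ∀ T'' : Cond D, T'.le T'' → (∀ p ∈ E, p ∈ T''.dom ∧ T''.col p = k) →
          Win 𝒜 f fn k S (insert y a) T'') := by
    intro T'
    by_cases hT : T.le T'
    · obtain ⟨A, h1, h2⟩ := h T' hT
      exact ⟨A, fun _ => ⟨h1, h2⟩⟩
    · exact ⟨∅, fun h => absurd h hT⟩
  choose A hA using h'
  have h'' : ∀ (T' : Cond D) (y : ℕ), ∃ E : Finset (ℕ × D), T.le T' → y ∈ A T' →
      Sat f fn T' y → (∀ x ∈ a, x < y) → ((∀ p ∈ E, p ∈ T'.dom → T'.col p = k) ∧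
        ∀ T'' : Cond D, T'.le T'' → (∀ p ∈ E, p ∈ T''.dom ∧ T''.col p = k) →
          Win 𝒜 f fn k S (insert y a) T'') := by
    intro T' y
    by_cases hT : T.le T' ∧ y ∈ A T' ∧ Sat f fn T' y ∧ (∀ x ∈ a, x < y)
    · obtain ⟨h1, h2, h3, h4⟩ := hT
      obtain ⟨E, h5⟩ := (hA T' h1).2 y h2 h3 h4
      exact ⟨E, fun _ _ _ _ => h5⟩
    · exact ⟨∅, fun h1 h2 h3 h4 => absurd ⟨h1, h2, h3, h4⟩ hT⟩
  choose E hE using h''
  exact .step a T A E (fun T' hT => (hA T' hT).1)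
    (fun T' hT y hy hs hx => (hE T' y hT hy hs hx).1)
    (fun T' hT y hy hs hx => (hE T' y hT hy hs hx).2)

/-- a step without constraints -/
theorem Win.mk0 {a : Finset ℕ} {T : Cond D}
    (h : ∀ T' : Cond D, T.le T' → ∃ A ∈ 𝒜, ∀ y ∈ A, Sat f fn T' y → (∀ x ∈ a, x < y) →
        ∀ T'' : Cond D, T'.le T'' → Win 𝒜 f fn k S (insert y a) T'') : Win 𝒜 f fn k S a T := by
  refine Win.mk fun T' hT => ?_
  obtain ⟨A, hA, h1⟩ := h T' hT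
  refine ⟨A, hA, fun y hy hs hx => ⟨∅, by simp, fun T'' h'' _ => h1 y hy hs hx T'' h''⟩⟩

end

/-- standing assumptions: the countable family `𝒜` of members of `U` contains all the
sets that will be used -/
structure Setup {ι : Type} (U : Ultrafilter ℕ) (Φ : ι → Finset ℕ → Set ℕ) {D : Type}
    (fn : D → ℕ → ℕ) (𝒜 : Set (Set ℕ)) : Prop where
  hU : ∀ n : ℕ, ∀ᶠ y in (U : Filter ℕ), n < y
  mono : ∀ e a b, EndExt a b → Φ e a ⊆ Φ e b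
  sub : ∀ A ∈ 𝒜, A ∈ U
  inter : ∀ A ∈ 𝒜, ∀ B ∈ 𝒜, A ∩ B ∈ 𝒜
  c_gt : ∀ n : ℕ, {y | n < y} ∈ 𝒜
  c_pair : ∀ e z₁ z₂ a, RSet U (fun b => z₁ ∈ Φ e b ∧ z₂ ∈ Φ e b) a ∈ U →
    RSet U (fun b => z₁ ∈ Φ e b ∧ z₂ ∈ Φ e b) a ∈ 𝒜
  c_pred : ∀ e z a, {y | z ∈ Pred U Φ e (insert y a)} ∈ U →
    {y | z ∈ Pred U Φ e (insert y a)} ∈ 𝒜
  c_rk : ∀ (e : ι) (B a : Finset ℕ), RSet U (fun b => ¬ Φ e b ⊆ (↑B : Set ℕ)) a ∈ U →
    RSet U (fun b => ¬ Φ e b ⊆ (↑B : Set ℕ)) a ∈ 𝒜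
  c_nrk : ∀ e B a, {y | ¬ Rk U Φ e B (insert y a)} ∈ U → {y | ¬ Rk U Φ e B (insert y a)} ∈ 𝒜
  c_sub : ∀ (e : ι) (B a : Finset ℕ), {y | Pred U Φ e (insert y a) ⊆ (↑B : Set ℕ)} ∈ U →
    {y | Pred U Φ e (insert y a) ⊆ (↑B : Set ℕ)} ∈ 𝒜
  c_nsub : ∀ (e : ι) (B a : Finset ℕ), {y | ¬ Pred U Φ e (insert y a) ⊆ (↑B : Set ℕ)} ∈ U →
    {y | ¬ Pred U Φ e (insert y a) ⊆ (↑B : Set ℕ)} ∈ 𝒜
  c_mm : ∀ (e : ι) (B a : Finset ℕ) (n : ℕ), {y | mm U Φ e B (insert y a) ≠ n} ∈ U →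
    {y | mm U Φ e B (insert y a) ≠ n} ∈ 𝒜
  c_fn : ∀ (e : ι) (B a : Finset ℕ) (δ : D), {y | fn δ y = mm U Φ e B (insert y a)} ∈ U →
    {y | fn δ y = mm U Φ e B (insert y a)} ∈ 𝒜
  c_fp : ∀ (e : ι) (B a : Finset ℕ) (δ : D), {y | FP U Φ fn e B δ (insert y a)} ∈ U →
    {y | FP U Φ fn e B δ (insert y a)} ∈ 𝒜
  c_nfp : ∀ (e : ι) (B a : Finset ℕ) (δ : D), {y | ¬ FP U Φ fn e B δ (insert y a)} ∈ U →
    {y | ¬ FP U Φ fn e B δ (insert y a)} ∈ 𝒜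
  d1 : ∀ (δ : D) (n : ℕ), ∀ᶠ y in (U : Filter ℕ), n < fn δ y
  d2 : ∀ δ δ' : D, δ ≠ δ' → ∀ᶠ y in (U : Filter ℕ), fn δ y ≠ fn δ' y
  d3 : ∀ e B a, Crit U Φ e B a →
    ∃ δ : D, ∀ᶠ y in (U : Filter ℕ), fn δ y = mm U Φ e B (insert y a)

/-- genericity of the colouring -/
structure Gen {ι : Type} (U : Ultrafilter ℕ) (Φ : ι → Finset ℕ → Set ℕ) {D : Type}
    (fn : D → ℕ → ℕ) (𝒜 : Set (Set ℕ)) (f : ℕ → ℕ → Fin 3) : Prop where
  symm : ∀ x y, f x y = f y x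
  g1 : ∀ (T : Cond D), ∀ A ∈ 𝒜, ∃ y ∈ A, Sat f fn T y
  g2 : ∀ e a, (Pred U Φ e a).Infinite → ∀ k : Fin 3,
    ∃ z₁ ∈ Pred U Φ e a, ∃ z₂ ∈ Pred U Φ e a, z₁ ≠ z₂ ∧ f z₁ z₂ = k

section

variable {ι : Type} {U : Ultrafilter ℕ} {Φ : ι → Finset ℕ → Set ℕ} {D : Type}
    {fn : D → ℕ → ℕ} {𝒜 : Set (Set ℕ)} {f : ℕ → ℕ → Fin 3}

theorem Setup.finset_inter (hs : Setup U Φ fn 𝒜) {κ : Type} (s : Finset κ) (P : κ → ℕ → Prop)
    (h : ∀ i ∈ s, {y | P i y} ∈ 𝒜) : {y | ∀ i ∈ s, P i y} ∈ U →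
      ∃ A ∈ 𝒜, ∀ y ∈ A, ∀ i ∈ s, P i y := by
  classical
  intro _
  induction s using Finset.induction_on with
  | empty => exact ⟨_, hs.c_gt 0, by simp⟩
  | insert i s _ ih =>
    have h1 : ∀ j ∈ s, {y | P j y} ∈ 𝒜 := fun j hj => h j (Finset.mem_insert_of_mem hj)
    have h2 : {y | ∀ i ∈ s, P i y} ∈ U := by
      have : ∀ᶠ y in (U : Filter ℕ), ∀ i ∈ s, P i y := by
        rw [Filter.eventually_all_finset]
        exact fun j hj => hs.sub _ (h1 j hj)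
      exact this
    obtain ⟨A, hA, hA'⟩ := ih h1 h2
    refine ⟨_, hs.inter _ (h i (Finset.mem_insert_self _ _)) _ hA, ?_⟩
    intro y hy j hj
    rw [Finset.mem_insert] at hj
    rcases hj with rfl | hj
    · exact hy.1
    · exact hA' y hy.2 j hj

theorem Setup.inter_fin (hs : Setup U Φ fn 𝒜) {κ : Type} (s : Finset κ) (P : κ → ℕ → Prop)
    (h : ∀ i ∈ s, {y | P i y} ∈ 𝒜) : ∃ A ∈ 𝒜, ∀ y ∈ A, ∀ i ∈ s, P i y := by
  refine hs.finset_inter s P h ?_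
  have : ∀ᶠ y in (U : Filter ℕ), ∀ i ∈ s, P i y := by
    rw [Filter.eventually_all_finset]
    exact fun j hj => hs.sub _ (h j hj)
  exact this

theorem Setup.gt_fin (hs : Setup U Φ fn 𝒜) (a : Finset ℕ) :
    ∀ᶠ y in (U : Filter ℕ), ∀ x ∈ a, x < y := by
  rw [Filter.eventually_all_finset]
  exact fun x _ => hs.hU x

theorem Setup.phi_succ (hs : Setup U Φ fn 𝒜) (e : ι) (a : Finset ℕ) :
    ∀ᶠ y in (U : Filter ℕ), Φ e a ⊆ Φ e (insert y a) := by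
  filter_upwards [hs.gt_fin a] with y hy
  exact hs.mono e _ _ (EndExt.insert hy)

theorem Setup.pred_succ (hs : Setup U Φ fn 𝒜) {e : ι} {a : Finset ℕ} {z : ℕ}
    (h : z ∈ Pred U Φ e a) : ∀ᶠ y in (U : Filter ℕ), z ∈ Pred U Φ e (insert y a) := by
  refine ev_succ (Q := fun b => z ∈ Φ e b) ?_ h
  intro a hz
  filter_upwards [hs.phi_succ e a] with y hy
  exact hy hz

theorem Setup.phi_sub_pred (_hs : Setup U Φ fn 𝒜) (e : ι) (a : Finset ℕ) :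
    Φ e a ⊆ Pred U Φ e a := fun z hz => ev_base (Q := fun b => z ∈ Φ e b) hz

theorem Setup.pred_of_succ (_hs : Setup U Φ fn 𝒜) {e : ι} {a : Finset ℕ} {z : ℕ}
    (h : ∀ᶠ y in (U : Filter ℕ), z ∈ Pred U Φ e (insert y a)) : z ∈ Pred U Φ e a :=
  ev_step (Q := fun b => z ∈ Φ e b) h

/-- `mm` at a critical node avoids every value. -/
theorem Setup.mm_ne (hs : Setup U Φ fn 𝒜) {e : ι} {B a : Finset ℕ} (h : Crit U Φ e B a) (n : ℕ) :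
    ∀ᶠ y in (U : Filter ℕ), mm U Φ e B (insert y a) ≠ n := by
  rw [← not_not (a := ∀ᶠ y in (U : Filter ℕ), mm U Φ e B (insert y a) ≠ n),
    ← Ultrafilter.eventually_not]
  simp only [not_not]
  intro hn
  have h3 : ∀ᶠ y in (U : Filter ℕ), n ∈ Pred U Φ e (insert y a) ∧ n ∉ B := by
    filter_upwards [hn, h.2] with y hy hy'
    rw [Set.not_subset] at hy'
    obtain ⟨z, hz, hz'⟩ := hy'
    have : sInf (Pred U Φ e (insert y a) \ ↑B) ∈ Pred U Φ e (insert y a) \ ↑B :=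
      Nat.sInf_mem ⟨z, hz, hz'⟩
    have h4 : mm U Φ e B (insert y a) ∈ Pred U Φ e (insert y a) \ ↑B := this
    rw [hy] at h4
    exact ⟨h4.1, by simpa using h4.2⟩
  have h5 : n ∈ Pred U Φ e a := hs.pred_of_succ (h3.mono fun _ h => h.1)
  obtain ⟨_, _, h6⟩ := h3.exists
  exact h6 (by simpa using h.1 h5)

theorem Setup.mm_mem {e : ι} {B b : Finset ℕ} (h : ¬ Pred U Φ e b ⊆ ↑B) :
    mm U Φ e B b ∈ Pred U Φ e b ∧ mm U Φ e B b ∉ B := by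
  rw [Set.not_subset] at h
  obtain ⟨z, hz, hz'⟩ := h
  have h4 : mm U Φ e B b ∈ Pred U Φ e b \ ↑B := Nat.sInf_mem ⟨z, hz, hz'⟩
  exact ⟨h4.1, by simpa using h4.2⟩

theorem Setup.fp_sub (hs : Setup U Φ fn 𝒜) {e : ι} {B : Finset ℕ} {δ : D} (a : Finset ℕ)
    (h : FP U Φ fn e B δ a) : Pred U Φ e a ⊆ ↑B := by
  refine ev_rec (M := fun a => Pred U Φ e a ⊆ ↑B) ?_ ?_ a h
  · intro a h
    exact h.1.1
  · intro a _ hm ih z hz
    have h1 := hs.pred_succ hz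
    obtain ⟨y, hy, hy'⟩ := (h1.and hm).exists
    exact (ih y hy').2 hy

theorem Setup.fp_unique (hs : Setup U Φ fn 𝒜) {e : ι} {B : Finset ℕ} {δ δ' : D} (a : Finset ℕ)
    (h : FP U Φ fn e B δ a) (h' : FP U Φ fn e B δ' a) : δ = δ' := by
  by_contra hne
  revert h'
  refine ev_rec (M := fun a => FP U Φ fn e B δ' a → False) ?_ ?_ a h
  · rintro a ⟨hc, hd⟩ h'
    by_cases hc' : Crit U Φ e B a ∧ ∀ᶠ y in (U : Filter ℕ), fn δ' y = mm U Φ e B (insert y a)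
    · obtain ⟨y, h1, h2, h3⟩ := (hd.and (hc'.2.and (hs.d2 δ δ' hne))).exists
      exact h3 (h1.trans h2.symm)
    · have h1 := rset_mem h' hc'
      have h2 : ∀ᶠ y in (U : Filter ℕ), FP U Φ fn e B δ' (insert y a) := by
        filter_upwards [h1] with y hy
        obtain ⟨β, _, hβ⟩ := hy
        exact ⟨β, hβ⟩
      obtain ⟨y, h3, h4⟩ := (h2.and hc.2).exists
      exact h4 (hs.fp_sub _ h3)
  · intro a hna hm ih h'
    by_cases hc' : Crit U Φ e B a ∧ ∀ᶠ y in (U : Filter ℕ), fn δ' y = mm U Φ e B (insert y a)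
    · obtain ⟨y, h3, h4⟩ := (hc'.1.2.and hm).exists
      exact h3 (hs.fp_sub _ (ih y h4).1)
    · have h1 := rset_mem h' hc'
      obtain ⟨y, h3, h4⟩ := ((show ∀ᶠ y in (U : Filter ℕ), y ∈ RSet U _ a from h1).and hm).exists
      obtain ⟨β, _, hβ⟩ := h3
      exact (ih y h4).2 ⟨β, hβ⟩

end

end Pool.Agent.H64.Soc
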