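import Mathlib

set_option autoImplicit false

open Filter

namespace Pool.Agent.H64.Soc

/-- Ordinal stages of the closure of a predicate on finite sets under
one-point extensions taken along the ultrafilter. -/
def EvO (U : Ultrafilter ℕ) (Q : Finset ℕ → Prop) (α : Ordinal.{0}) (a : Finset ℕ) : Prop :=
  Q a ∨ {y | ∃ β : Ordinal.{0}, ∃ _ : β < α, EvO U Q β (insert y a)} ∈ U
termination_by α

theorem evO_iff (U : Ultrafilter ℕ) (Q : Finset ℕ → Prop) (α : Ordinal.{0}) (a : Finset ℕ) :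
    EvO U Q α a ↔ (Q a ∨ {y | ∃ β : Ordinal.{0}, β < α ∧ EvO U Q β (insert y a)} ∈ U) := by
  rw [EvO]
  simp only [exists_prop]

/-- The closure of `Q` under `U`-one-point extensions. -/
def Ev (U : Ultrafilter ℕ) (Q : Finset ℕ → Prop) (a : Finset ℕ) : Prop :=
  ∃ α : Ordinal.{0}, EvO U Q α a

/-- the rank -/
noncomputable def rk (U : Ultrafilter ℕ) (Q : Finset ℕ → Prop) (a : Finset ℕ) : Ordinal.{0} :=
  sInf {α | EvO U Q α a}

theorem evO_rk {U : Ultrafilter ℕ} {Q : Finset ℕ → Prop} {a : Finset ℕ} (h : Ev U Q a) :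
    EvO U Q (rk U Q a) a := by
  have : {α : Ordinal.{0} | EvO U Q α a}.Nonempty := h
  exact csInf_mem this

theorem rk_le {U : Ultrafilter ℕ} {Q : Finset ℕ → Prop} {a : Finset ℕ} {α : Ordinal.{0}}
    (h : EvO U Q α a) : rk U Q a ≤ α := csInf_le' h

/-- successors of smaller rank -/
def RSet (U : Ultrafilter ℕ) (Q : Finset ℕ → Prop) (a : Finset ℕ) : Set ℕ :=
  {y | ∃ β : Ordinal.{0}, β < rk U Q a ∧ EvO U Q β (insert y a)}

theorem ev_base {U : Ultrafilter ℕ} {Q : Finset ℕ → Prop} {a : Finset ℕ} (h : Q a) : Ev U Q a :=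
  ⟨0, by rw [evO_iff]; exact Or.inl h⟩

theorem rset_mem {U : Ultrafilter ℕ} {Q : Finset ℕ → Prop} {a : Finset ℕ} (h : Ev U Q a)
    (hQ : ¬ Q a) : RSet U Q a ∈ U := by
  have := evO_rk h
  rw [evO_iff] at this
  exact this.resolve_left hQ

theorem ev_step {U : Ultrafilter ℕ} {Q : Finset ℕ → Prop} {a : Finset ℕ}
    (h : ∀ᶠ y in (U : Filter ℕ), Ev U Q (insert y a)) : Ev U Q a := by
  classical
  refine ⟨⨆ y : ℕ, Order.succ (rk U Q (insert y a)), ?_⟩
  rw [evO_iff]
  right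
  filter_upwards [h] with y hy
  refine ⟨rk U Q (insert y a), ?_, evO_rk hy⟩
  calc rk U Q (insert y a) < Order.succ (rk U Q (insert y a)) := Order.lt_succ _
    _ ≤ _ := Ordinal.le_iSup (fun y : ℕ => Order.succ (rk U Q (insert y a))) y

theorem ev_rec {U : Ultrafilter ℕ} {Q : Finset ℕ → Prop} {M : Finset ℕ → Prop}
    (h1 : ∀ a, Q a → M a)
    (h2 : ∀ a, ¬ Q a → RSet U Q a ∈ U →
      (∀ y ∈ RSet U Q a, Ev U Q (insert y a) ∧ M (insert y a)) → M a)
    (a : Finset ℕ) (h : Ev U Q a) : M a := by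
  have key : ∀ α : Ordinal.{0}, ∀ a, Ev U Q a → rk U Q a = α → M a := by
    intro α
    induction α using WellFoundedLT.induction with
    | _ α ih =>
      intro a ha hα
      by_cases hQ : Q a
      · exact h1 a hQ
      · refine h2 a hQ (rset_mem ha hQ) ?_
        rintro y ⟨β, hβ, hy⟩
        have hev : Ev U Q (insert y a) := ⟨β, hy⟩
        refine ⟨hev, ih (rk U Q (insert y a)) ?_ _ hev rfl⟩
        calc rk U Q (insert y a) ≤ β := rk_le hy
          _ < _ := hβ
          _ = α := hα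
  exact key _ a h rfl

theorem ev_succ {U : Ultrafilter ℕ} {Q : Finset ℕ → Prop} {a : Finset ℕ}
    (hp : ∀ a, Q a → ∀ᶠ y in (U : Filter ℕ), Q (insert y a)) (h : Ev U Q a) :
    ∀ᶠ y in (U : Filter ℕ), Ev U Q (insert y a) := by
  by_cases hQ : Q a
  · filter_upwards [hp a hQ] with y hy
    exact ev_base hy
  · filter_upwards [rset_mem h hQ] with y hy
    obtain ⟨β, _, hβ⟩ := hy
    exact ⟨β, hβ⟩

theorem not_ev_succ {U : Ultrafilter ℕ} {Q : Finset ℕ → Prop} {a : Finset ℕ}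
    (h : ¬ Ev U Q a) : ∀ᶠ y in (U : Filter ℕ), ¬ Ev U Q (insert y a) := by
  rw [Ultrafilter.eventually_not]
  exact fun h' => h (ev_step h')

theorem ev_of_pair {U : Ultrafilter ℕ} {Q R : Finset ℕ → Prop}
    (hp : ∀ a, Q a → ∀ᶠ y in (U : Filter ℕ), Q (insert y a))
    (hr : ∀ a, R a → ∀ᶠ y in (U : Filter ℕ), R (insert y a))
    (a : Finset ℕ) (h : Ev U Q a) (h' : Ev U R a) : Ev U (fun b => Q b ∧ R b) a := by
  revert h'
  refine ev_rec (M := fun a => Ev U R a → Ev U (fun b => Q b ∧ R b) a) ?_ ?_ a h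
  · intro a hQ hR
    revert hQ
    refine ev_rec (M := fun a => Q a → Ev U (fun b => Q b ∧ R b) a) ?_ ?_ a hR
    · intro a h1 h2
      exact ev_base ⟨h2, h1⟩
    · intro a _ hm ih hQ
      apply ev_step
      filter_upwards [hm, hp a hQ] with y hy hy'
      exact (ih y hy).2 hy'
  · intro a _ hm ih hR
    apply ev_step
    filter_upwards [hm, ev_succ hr hR] with y hy hy'
    exact (ih y hy).2 hy'

end Pool.Agent.H64.Soc
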