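import Mathlib

set_option autoImplicit false

namespace Pool.Agent.H64.Soc

/-- codes for oracle computations -/
inductive OCode : Type
  | zero : OCode
  | succ : OCode
  | left : OCode
  | right : OCode
  | oracle : OCode
  | pair : OCode → OCode → OCode
  | comp : OCode → OCode → OCode
  | prec : OCode → OCode → OCode
  | rfind : OCode → OCode

namespace OCode

/-- a numerical coding, to see that there are countably many codes -/
def toNat : OCode → ℕ
  | zero => 0
  | succ => 1
  | left => 2
  | right => 3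
  | oracle => 4
  | pair a b => 4 * Nat.pair (toNat a) (toNat b) + 5
  | comp a b => 4 * Nat.pair (toNat a) (toNat b) + 6
  | prec a b => 4 * Nat.pair (toNat a) (toNat b) + 7
  | rfind a => 4 * toNat a + 8

theorem toNat_injective : Function.Injective toNat := by
  intro a
  induction a with
  | zero => intro b h; cases b <;> simp only [toNat] at h <;> first | rfl | omega
  | succ => intro b h; cases b <;> simp only [toNat] at h <;> first | rfl | omega
  | left => intro b h; cases b <;> simp only [toNat] at h <;> first | rfl | omega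
  | right => intro b h; cases b <;> simp only [toNat] at h <;> first | rfl | omega
  | oracle => intro b h; cases b <;> simp only [toNat] at h <;> first | rfl | omega
  | pair a₁ a₂ ih₁ ih₂ =>
    intro b h
    cases b with
    | pair b₁ b₂ =>
      simp only [toNat] at h
      have h1 : Nat.pair (toNat a₁) (toNat a₂) = Nat.pair (toNat b₁) (toNat b₂) := by omega
      rw [Nat.pair_eq_pair] at h1
      rw [ih₁ h1.1, ih₂ h1.2]
    | _ => simp only [toNat] at h; omega
  | comp a₁ a₂ ih₁ ih₂ =>
    intro b h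
    cases b with
    | comp b₁ b₂ =>
      simp only [toNat] at h
      have h1 : Nat.pair (toNat a₁) (toNat a₂) = Nat.pair (toNat b₁) (toNat b₂) := by omega
      rw [Nat.pair_eq_pair] at h1
      rw [ih₁ h1.1, ih₂ h1.2]
    | _ => simp only [toNat] at h; omega
  | prec a₁ a₂ ih₁ ih₂ =>
    intro b h
    cases b with
    | prec b₁ b₂ =>
      simp only [toNat] at h
      have h1 : Nat.pair (toNat a₁) (toNat a₂) = Nat.pair (toNat b₁) (toNat b₂) := by omega
      rw [Nat.pair_eq_pair] at h1
      rw [ih₁ h1.1, ih₂ h1.2]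
    | _ => simp only [toNat] at h; omega
  | rfind a ih =>
    intro b h
    cases b with
    | rfind b =>
      simp only [toNat] at h
      rw [ih (by omega : toNat a = toNat b)]
    | _ => simp only [toNat] at h; omega

instance : Countable OCode := toNat_injective.countable

/-- evaluation relative to an oracle -/
def eval (o : ℕ →. ℕ) : OCode → (ℕ →. ℕ)
  | zero => fun _ => 0
  | succ => Nat.succ
  | left => fun n => (Nat.unpair n).1
  | right => fun n => (Nat.unpair n).2
  | oracle => o
  | pair a b => fun n => (Nat.pair <$> eval o a n <*> eval o b n)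
  | comp a b => fun n => eval o b n >>= eval o a
  | prec a b => fun p =>
        let (a', n) := Nat.unpair p
        n.rec (eval o a a') fun y IH => do
          let i ← IH
          eval o b (Nat.pair a' (Nat.pair y i))
  | rfind a => fun a' => Nat.rfind fun n => (fun m => m = 0) <$> eval o a (Nat.pair a' n)

theorem exists_code {o f : ℕ →. ℕ} (h : Nat.RecursiveIn {o} f) : ∃ c : OCode, eval o c = f := by
  induction h with
  | zero => exact ⟨zero, rfl⟩
  | succ => exact ⟨succ, rfl⟩
  | left => exact ⟨left, rfl⟩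
  | right => exact ⟨right, rfl⟩
  | oracle g hg => exact ⟨oracle, by rw [Set.mem_singleton_iff] at hg; exact hg.symm⟩
  | pair _ _ ih₁ ih₂ =>
    obtain ⟨a, rfl⟩ := ih₁
    obtain ⟨b, rfl⟩ := ih₂
    exact ⟨pair a b, rfl⟩
  | comp _ _ ih₁ ih₂ =>
    obtain ⟨a, rfl⟩ := ih₁
    obtain ⟨b, rfl⟩ := ih₂
    exact ⟨comp a b, rfl⟩
  | prec _ _ ih₁ ih₂ =>
    obtain ⟨a, rfl⟩ := ih₁
    obtain ⟨b, rfl⟩ := ih₂
    exact ⟨prec a b, rfl⟩
  | rfind _ ih =>
    obtain ⟨a, rfl⟩ := ih
    exact ⟨rfind a, rfl⟩

/-- total oracle as a partial function -/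
def tot (h : ℕ → ℕ) : ℕ →. ℕ := fun n => Part.some (h n)

/-- agreement below `m` -/
def Agree (m : ℕ) (h h' : ℕ → ℕ) : Prop := ∀ i, i < m → h' i = h i

theorem Agree.mono {m m' : ℕ} {h h' : ℕ → ℕ} (hm : m ≤ m') (H : Agree m' h h') : Agree m h h' :=
  fun i hi => H i (lt_of_lt_of_le hi hm)

/-- the use principle -/
theorem use_principle (h : ℕ → ℕ) (c : OCode) : ∀ n y, y ∈ eval (tot h) c n →
    ∃ m, ∀ h', Agree m h h' → y ∈ eval (tot h') c n := by
  induction c with
  | zero => intro n y hy; exact ⟨0, fun h' _ => hy⟩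
  | succ => intro n y hy; exact ⟨0, fun h' _ => hy⟩
  | left => intro n y hy; exact ⟨0, fun h' _ => hy⟩
  | right => intro n y hy; exact ⟨0, fun h' _ => hy⟩
  | oracle =>
    intro n y hy
    refine ⟨n + 1, fun h' hh => ?_⟩
    simp only [eval, tot, Part.mem_some_iff] at hy ⊢
    rw [hy, hh n (Nat.lt_succ_self n)]
  | pair a b iha ihb =>
    intro n y hy
    simp only [eval, Seq.seq, Part.map_eq_map, Part.mem_bind_iff, Part.mem_map_iff] at hy
    obtain ⟨g, ⟨u, hu, rfl⟩, v, hv, rfl⟩ := hy
    obtain ⟨m₁, h₁⟩ := iha n u hu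
    obtain ⟨m₂, h₂⟩ := ihb n v hv
    refine ⟨max m₁ m₂, fun h' hh => ?_⟩
    simp only [eval, Seq.seq, Part.map_eq_map, Part.mem_bind_iff, Part.mem_map_iff]
    exact ⟨_, ⟨u, h₁ h' (hh.mono (le_max_left _ _)), rfl⟩, v,
      h₂ h' (hh.mono (le_max_right _ _)), rfl⟩
  | comp a b iha ihb =>
    intro n y hy
    obtain ⟨u, hu, hy'⟩ := Part.mem_bind_iff.1 hy
    obtain ⟨m₁, h₁⟩ := ihb n u hu
    obtain ⟨m₂, h₂⟩ := iha u y hy'
    refine ⟨max m₁ m₂, fun h' hh => ?_⟩
    exact Part.mem_bind_iff.2
      ⟨u, h₁ h' (hh.mono (le_max_left _ _)), h₂ h' (hh.mono (le_max_right _ _))⟩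
  | prec a b iha ihb =>
    intro p
    simp only [eval]
    generalize hp : (Nat.unpair p) = q
    obtain ⟨a', n⟩ := q
    simp only
    induction n with
    | zero =>
      intro y hy
      exact iha a' y hy
    | succ n ih =>
      intro y hy
      -- the inner induction is on the recursion variable
      have key : ∀ (n : ℕ) (y : ℕ), y ∈ (Nat.rec (eval (tot h) a a') (fun y IH => do
          let i ← IH
          eval (tot h) b (Nat.pair a' (Nat.pair y i))) n : Part ℕ) →
          ∃ m, ∀ h', Agree m h h' → y ∈ (Nat.rec (eval (tot h') a a') (fun y IH => do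
          let i ← IH
          eval (tot h') b (Nat.pair a' (Nat.pair y i))) n : Part ℕ) := by
        intro n
        induction n with
        | zero => intro y hy; exact iha a' y hy
        | succ n ih =>
          intro y hy
          simp only [Part.bind_eq_bind, Part.mem_bind_iff] at hy
          obtain ⟨u, hu, hy⟩ := hy
          obtain ⟨m₁, h₁⟩ := ih u hu
          obtain ⟨m₂, h₂⟩ := ihb _ y hy
          refine ⟨max m₁ m₂, fun h' hh => ?_⟩
          simp only [Part.bind_eq_bind, Part.mem_bind_iff]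
          exact ⟨u, h₁ h' (hh.mono (le_max_left _ _)), h₂ h' (hh.mono (le_max_right _ _))⟩
      exact key (n + 1) y hy
  | rfind a iha =>
    intro n y hy
    let P : (ℕ → ℕ) → (ℕ →. Bool) := fun h k =>
      Part.map (fun m => decide (m = 0)) (eval (tot h) a (Nat.pair n k))
    have hy0 : y ∈ Nat.rfind (P h) := hy
    obtain ⟨hy1, hy2⟩ := Nat.mem_rfind.1 hy0
    have key : ∀ (k : ℕ) (b : Bool), b ∈ P h k →
        ∃ m, ∀ h', Agree m h h' → b ∈ P h' k := by
      intro k b hb
      have hb' : b ∈ Part.map (fun m => decide (m = 0)) (eval (tot h) a (Nat.pair n k)) := hb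
      rw [Part.mem_map_iff] at hb'
      obtain ⟨u, hu, rfl⟩ := hb'
      obtain ⟨m, hm⟩ := iha _ u hu
      refine ⟨m, fun h' hh => ?_⟩
      change _ ∈ Part.map (fun m => decide (m = 0)) (eval (tot h') a (Nat.pair n k))
      rw [Part.mem_map_iff]
      exact ⟨u, hm h' hh, rfl⟩
    obtain ⟨m₁, h₁⟩ := key y true hy1
    have key2 : ∀ k, k ≤ y → ∃ m, ∀ h', Agree m h h' → ∀ j, j < k → false ∈ P h' j := by
      intro k
      induction k with
      | zero => intro _; exact ⟨0, fun _ _ j hj => absurd hj (Nat.not_lt_zero j)⟩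
      | succ k ih =>
        intro hk
        obtain ⟨m, hm⟩ := ih (by omega)
        obtain ⟨m', hm'⟩ := key k false (hy2 (by omega))
        refine ⟨max m m', fun h' hh j hj => ?_⟩
        rcases Nat.lt_succ_iff_lt_or_eq.1 hj with hj | rfl
        · exact hm h' (hh.mono (le_max_left _ _)) j hj
        · exact hm' h' (hh.mono (le_max_right _ _))
    obtain ⟨m₂, h₂⟩ := key2 y le_rfl
    refine ⟨max m₁ m₂, fun h' hh => ?_⟩
    change y ∈ Nat.rfind (P h')
    exact Nat.mem_rfind.2
      ⟨h₁ h' (hh.mono (le_max_left _ _)), fun {j} hj => h₂ h' (hh.mono (le_max_right _ _)) j hj⟩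

end OCode

end Pool.Agent.H64.Soc
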