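import Pool.Agent.H64.SocGen
import Pool.Agent.H64.SocOracle

set_option autoImplicit false

open Filter

namespace Pool.Agent.H64.Soc

/-- outputs of the oracle program `c` that are already forced by the initial segment `a` -/
def phi (c : OCode) (a : Finset ℕ) : Set ℕ :=
  {z | ∀ H : Set ℕ, (↑a : Set ℕ) ⊆ H → (∀ y ∈ H, y ∉ a → ∀ x ∈ a, x < y) →
    1 ∈ OCode.eval (OCode.tot (Set.indicator H (fun _ => (1 : ℕ)))) c z}

theorem phi_mono (c : OCode) (a b : Finset ℕ) (hab : EndExt a b) : phi c a ⊆ phi c b := by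
  intro z hz H hbH hb
  refine hz H (fun x hx => hbH (hab.1 hx)) ?_
  intro y hy hya x hx
  by_cases hyb : y ∈ b
  · exact hab.2 y hyb hya x hx
  · exact hb y hy hyb x (hab.1 hx)

theorem out_phi {G H : Set ℕ} (hH : H.Infinite) {c : OCode}
    (hc : OCode.eval (OCode.tot (Set.indicator H (fun _ => (1 : ℕ)))) c =
      OCode.tot (Set.indicator G (fun _ => (1 : ℕ)))) : Out phi c H = G := by
  classical
  ext z
  constructor
  · rintro ⟨a, haH, ha, hz⟩
    have h1 := hz H haH ha
    rw [hc] at h1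
    have h2 : (1 : ℕ) = Set.indicator G (fun _ => (1 : ℕ)) z := Part.mem_some_iff.1 h1
    by_contra hzG
    rw [Set.indicator_of_notMem hzG] at h2
    exact one_ne_zero h2
  · intro hz
    have h1 : (1 : ℕ) ∈ OCode.eval (OCode.tot (Set.indicator H (fun _ => (1 : ℕ)))) c z := by
      rw [hc]
      refine Part.mem_some_iff.2 ?_
      rw [Set.indicator_of_mem hz]
    obtain ⟨m, hm⟩ := OCode.use_principle _ c z 1 h1
    obtain ⟨h, hhH, hmh⟩ := hH.exists_gt m
    refine ⟨(Finset.range (h + 1)).filter (fun x => x ∈ H), ?_, ?_, ?_⟩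
    · intro x hx
      simp only [Finset.coe_filter, Set.mem_ofPred_eq] at hx
      exact hx.2
    · intro y hy hya x hx
      simp only [Finset.mem_filter, Finset.mem_range, not_and] at hya hx
      by_contra hcon
      exact hya (by omega) hy
    · intro H' hsub hinit
      refine hm _ ?_
      intro i hi
      have hhmem : h ∈ (Finset.range (h + 1)).filter (fun x => x ∈ H) := by
        simp [hhH]
      by_cases hiH : i ∈ H
      · have : i ∈ H' := hsub (by
          simp only [Finset.coe_filter, Finset.mem_range, Set.mem_ofPred_eq]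
          exact ⟨by omega, hiH⟩)
        rw [Set.indicator_of_mem this, Set.indicator_of_mem hiH]
      · have : i ∉ H' := by
          intro hiH'
          have := hinit i hiH' (by simp [hiH]) h hhmem
          omega
        rw [Set.indicator_of_notMem this, Set.indicator_of_notMem hiH]

/-- `RT²₃` is not strongly omnisciently computably reducible to `RT²₂`. -/
theorem core : ∃ f : ℕ → ℕ → Fin 3, (∀ x y, f x y = f y x) ∧ ∀ g : ℕ → ℕ → Fin 2,
    ∃ H : Set ℕ, H.Infinite ∧ (∃ c : Fin 2, ∀ x ∈ H, ∀ y ∈ H, x < y → g x y = c) ∧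
      ∀ G : Set ℕ, G.Infinite →
        TuringReducible (fun m : ℕ => Part.some (Set.indicator G (fun _ => (1 : ℕ)) m))
          (fun m : ℕ => Part.some (Set.indicator H (fun _ => (1 : ℕ)) m)) →
        ∀ i : Fin 3, ∃ z₁ ∈ G, ∃ z₂ ∈ G, z₁ ≠ z₂ ∧ f z₁ z₂ ≠ i := by
  obtain ⟨f, hf, h⟩ := theoremA phi phi_mono
  refine ⟨f, hf, fun g => ?_⟩
  obtain ⟨H, hH, hc, hout⟩ := h g
  refine ⟨H, hH, hc, fun G hG hred i => ?_⟩
  have hred' := RecursiveIn.iff_nat.1 hred
  obtain ⟨c, hc'⟩ := OCode.exists_code hred'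
  have hGo : Out phi c H = G := out_phi hH hc'
  have := hout c (by rw [hGo]; exact hG) i
  rw [hGo] at this
  exact this

/-- every 3-colouring of the pairs of an infinite set has a monochromatic triangle -/
theorem exists_mono_triangle (f : ℕ → ℕ → Fin 3) (G : Set ℕ) (hG : G.Infinite) :
    ∃ i : Fin 3, ∃ x ∈ G, ∃ y ∈ G, ∃ z ∈ G, x < y ∧ y < z ∧ f x y = i ∧ f x z = i ∧ f y z = i := by
  classical
  have : Infinite G := hG.to_subtype
  let V : Ultrafilter ℕ := (hyperfilter G).map (fun x : G => (x : ℕ))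
  have hVG : ∀ᶠ y in (V : Filter ℕ), y ∈ G := by
    rw [Ultrafilter.coe_map, Filter.eventually_map]
    exact Filter.Eventually.of_forall fun x => x.2
  have hVn : ∀ n : ℕ, ∀ᶠ y in (V : Filter ℕ), n < y := by
    intro n
    rw [Ultrafilter.coe_map, Filter.eventually_map]
    have : ∀ᶠ y : G in (cofinite : Filter G), n < (y : ℕ) := by
      rw [Filter.eventually_cofinite]
      have h1 : (Set.Iic n).Finite := Set.finite_Iic n
      refine (h1.preimage (f := fun x : G => (x : ℕ)) Subtype.val_injective.injOn).subset ?_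
      intro y hy
      simpa using hy
    exact hyperfilter_le_cofinite this
  have hlim : ∀ h : ℕ → Fin 3, ∃ i : Fin 3, ∀ᶠ y in (V : Filter ℕ), h y = i := by
    intro h
    have h1 : ∀ᶠ y in (V : Filter ℕ), (h y = 0 ∨ h y = 1 ∨ h y = 2) := by
      refine Filter.Eventually.of_forall fun y => ?_
      generalize h y = c
      fin_cases c <;> simp
    rw [Ultrafilter.eventually_or, Ultrafilter.eventually_or] at h1
    rcases h1 with h1 | h1 | h1
    · exact ⟨0, h1⟩
    · exact ⟨1, h1⟩
    · exact ⟨2, h1⟩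
  choose φ hφ using fun x => hlim (f x)
  obtain ⟨i, hi⟩ := hlim φ
  obtain ⟨x, hxG, hxi⟩ := (hVG.and hi).exists
  have hx := hφ x
  rw [hxi] at hx
  obtain ⟨y, ⟨hyG, hyi⟩, hxy, hfxy⟩ := ((hVG.and hi).and ((hVn x).and hx)).exists
  have hy := hφ y
  rw [hyi] at hy
  obtain ⟨z, hzG, hyz, hfxz, hfyz⟩ := (hVG.and ((hVn y).and (hx.and hy))).exists
  exact ⟨i, x, hxG, y, hyG, z, hzG, hxy, hyz, hfxy, hfxz, hfyz⟩

end Pool.Agent.H64.Soc
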