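import Pool.Agent.H64.SocTwo

set_option autoImplicit false

open Filter

namespace Pool.Agent.H64.Soc

/-- the symmetric colouring attached to a function on pairs -/
def symc (h : ℕ × ℕ → Fin 3) (x y : ℕ) : Fin 3 := h (min x y, max x y)

theorem symc_symm (h : ℕ × ℕ → Fin 3) (x y : ℕ) : symc h x y = symc h y x := by
  unfold symc
  rw [min_comm, max_comm]

section generic

variable {U : Ultrafilter ℕ} {D : Type} {fn : D → ℕ → ℕ}

/-- first kind of dense open sets -/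
def R1 (fn : D → ℕ → ℕ) (l : Finset ((ℕ × D) × Fin 3)) (A : Set ℕ) : Set (ℕ × ℕ → Fin 3) :=
  {h | (∀ q ∈ l, ∀ q' ∈ l, q.1 = q'.1 → q.2 = q'.2) →
    ∃ y ∈ A, ∀ q ∈ l, symc h q.1.1 (fn q.1.2 y) = q.2}

theorem isOpen_eval (p : ℕ × ℕ) (k : Fin 3) : IsOpen {h : ℕ × ℕ → Fin 3 | h p = k} := by
  have : Continuous (fun h : ℕ × ℕ → Fin 3 => h p) := continuous_apply p
  exact (isOpen_discrete ({k} : Set (Fin 3))).preimage this

theorem isOpen_R1 (l : Finset ((ℕ × D) × Fin 3)) (A : Set ℕ) : IsOpen (R1 fn l A) := by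
  by_cases hl : ∀ q ∈ l, ∀ q' ∈ l, q.1 = q'.1 → q.2 = q'.2
  · have : R1 fn l A = ⋃ y ∈ A, ⋂ q ∈ l, {h | h (min q.1.1 (fn q.1.2 y), max q.1.1 (fn q.1.2 y)) = q.2} := by
      ext h
      simp only [R1, symc, Set.mem_ofPred_eq, Set.mem_iUnion, Set.mem_iInter, exists_prop]
      exact ⟨fun h1 => h1 hl, fun h1 _ => h1⟩
    rw [this]
    refine isOpen_biUnion fun y _ => ?_
    exact isOpen_biInter_finset fun q _ => isOpen_eval _ _
  · have : R1 fn l A = Set.univ := by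
      ext h
      simp only [R1, Set.mem_ofPred_eq, Set.mem_univ, iff_true]
      exact fun h1 => absurd h1 hl
    rw [this]
    exact isOpen_univ

theorem exists_bound (I : Finset (ℕ × ℕ)) : ∃ N, ∀ p ∈ I, p.1 < N ∧ p.2 < N := by
  refine ⟨I.sup (fun p => p.1 + p.2) + 1, fun p hp => ?_⟩
  have : p.1 + p.2 ≤ I.sup (fun p => p.1 + p.2) := Finset.le_sup (f := fun p : ℕ × ℕ => p.1 + p.2) hp
  constructor <;> omega

theorem dense_R1 (d1 : ∀ (δ : D) (n : ℕ), ∀ᶠ y in (U : Filter ℕ), n < fn δ y)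
    (d2 : ∀ δ δ' : D, δ ≠ δ' → ∀ᶠ y in (U : Filter ℕ), fn δ y ≠ fn δ' y)
    (l : Finset ((ℕ × D) × Fin 3)) (A : Set ℕ) (hA : A ∈ U) : Dense (R1 fn l A) := by
  classical
  rw [dense_iff_inter_open]
  intro O hO hne
  obtain ⟨h₀, hh₀⟩ := hne
  rw [isOpen_pi_iff] at hO
  obtain ⟨I, u, hu, hsub⟩ := hO h₀ hh₀
  obtain ⟨N, hN⟩ := exists_bound I
  obtain ⟨M, hM⟩ : ∃ M, ∀ q ∈ l, q.1.1 < M := by
    refine ⟨l.sup (fun q => q.1.1) + 1, fun q hq => ?_⟩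
    have : q.1.1 ≤ l.sup (fun q => q.1.1) :=
      Finset.le_sup (f := fun q : (ℕ × D) × Fin 3 => q.1.1) hq
    omega
  have hev : ∀ᶠ y in (U : Filter ℕ), y ∈ A ∧ (∀ q ∈ l, N + M < fn q.1.2 y) ∧
      (∀ q ∈ l, ∀ q' ∈ l, q.1.2 ≠ q'.1.2 → fn q.1.2 y ≠ fn q'.1.2 y) := by
    refine (show ∀ᶠ y in (U : Filter ℕ), y ∈ A from hA).and (Filter.Eventually.and ?_ ?_)
    · rw [Filter.eventually_all_finset]
      exact fun q _ => d1 q.1.2 (N + M)
    · rw [Filter.eventually_all_finset]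
      intro q _
      rw [Filter.eventually_all_finset]
      intro q' _
      by_cases hqq : q.1.2 = q'.1.2
      · exact Filter.Eventually.of_forall fun _ h => absurd hqq h
      · filter_upwards [d2 _ _ hqq] with y hy _ using hy
  obtain ⟨y, hyA, hy1, hy2⟩ := hev.exists
  by_cases hl : ∀ q ∈ l, ∀ q' ∈ l, q.1 = q'.1 → q.2 = q'.2
  swap
  · exact ⟨h₀, hh₀, fun h => absurd h hl⟩
  let h : ℕ × ℕ → Fin 3 := fun p =>
    if hex : ∃ q ∈ l, p = (q.1.1, fn q.1.2 y) then hex.choose.2 else h₀ p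
  refine ⟨h, hsub ?_, fun _ => ⟨y, hyA, ?_⟩⟩
  · intro p hp
    have hpI : p ∈ I := hp
    have hno : ¬ ∃ q ∈ l, p = (q.1.1, fn q.1.2 y) := by
      rintro ⟨q, hq, rfl⟩
      have h1 := (hN _ hpI).2
      have h2 := hy1 q hq
      simp only at h1
      omega
    have : h p = h₀ p := by simp only [h, hno, dif_neg, not_false_eq_true]
    rw [this]
    exact (hu p hpI).2
  · intro q hq
    have hlt : q.1.1 < fn q.1.2 y := by
      have h1 := hM q hq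
      have h2 := hy1 q hq
      omega
    unfold symc
    rw [min_eq_left hlt.le, max_eq_right hlt.le]
    have hex : ∃ q' ∈ l, ((q.1.1, fn q.1.2 y) : ℕ × ℕ) = (q'.1.1, fn q'.1.2 y) := ⟨q, hq, rfl⟩
    have h1 : h (q.1.1, fn q.1.2 y) = hex.choose.2 := by
      simp only [h]
      rw [dif_pos hex]
    rw [h1]
    obtain ⟨h2, h3⟩ := hex.choose_spec
    refine hl _ h2 _ hq ?_
    rw [Prod.mk.injEq] at h3
    have h4 : q.1.2 = hex.choose.1.2 := by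
      by_contra hcon
      exact hy2 q hq _ h2 hcon h3.2
    exact Prod.ext h3.1.symm h4.symm

/-- second kind of dense open sets -/
def R2 (O : Set ℕ) (k : Fin 3) : Set (ℕ × ℕ → Fin 3) :=
  {h | ∃ z₁ ∈ O, ∃ z₂ ∈ O, z₁ ≠ z₂ ∧ symc h z₁ z₂ = k}

theorem isOpen_R2 (O : Set ℕ) (k : Fin 3) : IsOpen (R2 O k) := by
  have : R2 O k = ⋃ z₁ ∈ O, ⋃ z₂ ∈ O, ⋃ _ : z₁ ≠ z₂, {h | h (min z₁ z₂, max z₁ z₂) = k} := by
    ext h
    simp only [R2, symc, Set.mem_ofPred_eq, Set.mem_iUnion, exists_prop]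
  rw [this]
  refine isOpen_biUnion fun _ _ => isOpen_biUnion fun _ _ => isOpen_iUnion fun _ => isOpen_eval _ _

theorem dense_R2 (O : Set ℕ) (hO : O.Infinite) (k : Fin 3) : Dense (R2 O k) := by
  classical
  rw [dense_iff_inter_open]
  intro W hW hne
  obtain ⟨h₀, hh₀⟩ := hne
  rw [isOpen_pi_iff] at hW
  obtain ⟨I, u, hu, hsub⟩ := hW h₀ hh₀
  obtain ⟨N, hN⟩ := exists_bound I
  obtain ⟨z₁, hz₁, hz₁N⟩ := hO.exists_gt N
  obtain ⟨z₂, hz₂, hz₂N⟩ := hO.exists_gt z₁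
  refine ⟨Function.update h₀ (z₁, z₂) k, hsub ?_, z₁, hz₁, z₂, hz₂, by omega, ?_⟩
  · intro p hp
    have hpI : p ∈ I := hp
    have hne : p ≠ (z₁, z₂) := by
      rintro rfl
      have := (hN _ hpI).2
      simp only at this
      omega
    rw [Function.update_of_ne hne]
    exact (hu p hpI).2
  · unfold symc
    rw [min_eq_left hz₂N.le, max_eq_right hz₂N.le, Function.update_self]

theorem exists_generic [Countable D]
    (d1 : ∀ (δ : D) (n : ℕ), ∀ᶠ y in (U : Filter ℕ), n < fn δ y)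
    (d2 : ∀ δ δ' : D, δ ≠ δ' → ∀ᶠ y in (U : Filter ℕ), fn δ y ≠ fn δ' y)
    (𝒜 : Set (Set ℕ)) (h𝒜 : 𝒜.Countable) (hsub : ∀ A ∈ 𝒜, A ∈ U)
    (𝒪 : Set (Set ℕ)) (h𝒪 : 𝒪.Countable) (hinf : ∀ O ∈ 𝒪, O.Infinite) :
    ∃ f : ℕ → ℕ → Fin 3, (∀ x y, f x y = f y x) ∧
      (∀ (T : Cond D), ∀ A ∈ 𝒜, ∃ y ∈ A, Sat f fn T y) ∧
      (∀ O ∈ 𝒪, ∀ k : Fin 3, ∃ z₁ ∈ O, ∃ z₂ ∈ O, z₁ ≠ z₂ ∧ f z₁ z₂ = k) := by
  classical
  have := h𝒜.to_subtype
  have := h𝒪.to_subtype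
  have h1 : Dense (⋂ s : (Finset ((ℕ × D) × Fin 3) × 𝒜) ⊕ (𝒪 × Fin 3),
      (match s with
        | Sum.inl p => R1 fn p.1 p.2.1
        | Sum.inr p => R2 p.1.1 p.2 : Set (ℕ × ℕ → Fin 3))) := by
    refine dense_iInter_of_isOpen ?_ ?_
    · rintro (p | p)
      · exact isOpen_R1 _ _
      · exact isOpen_R2 _ _
    · rintro (p | p)
      · exact dense_R1 d1 d2 _ _ (hsub _ p.2.2)
      · exact dense_R2 _ (hinf _ p.1.2) _
  obtain ⟨h, hh⟩ := h1.nonempty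
  rw [Set.mem_iInter] at hh
  refine ⟨symc h, symc_symm h, ?_, ?_⟩
  · intro T A hA
    have h2 : h ∈ R1 fn (T.dom.image fun p => (p, T.col p)) A :=
      hh (Sum.inl (T.dom.image fun p => (p, T.col p), ⟨A, hA⟩))
    obtain ⟨y, hy, hys⟩ := h2 (by
      intro q hq q' hq' hqq
      rw [Finset.mem_image] at hq hq'
      obtain ⟨p, _, rfl⟩ := hq
      obtain ⟨p', _, rfl⟩ := hq'
      simp only at hqq
      rw [hqq])
    refine ⟨y, hy, fun p hp => ?_⟩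
    exact hys (p, T.col p) (Finset.mem_image_of_mem _ hp)
  · intro O hO k
    exact hh (Sum.inr (⟨O, hO⟩, k))

end generic

section setup

variable {ι : Type} {U : Ultrafilter ℕ} {Φ : ι → Finset ℕ → Set ℕ}

theorem mm_ne' {e : ι} {B a : Finset ℕ} (h : Crit U Φ e B a) (n : ℕ) :
    ∀ᶠ y in (U : Filter ℕ), mm U Φ e B (insert y a) ≠ n := by
  rw [← not_not (a := ∀ᶠ y in (U : Filter ℕ), mm U Φ e B (insert y a) ≠ n),
    ← Ultrafilter.eventually_not]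
  simp only [not_not]
  intro hn
  have h3 : ∀ᶠ y in (U : Filter ℕ), n ∈ Pred U Φ e (insert y a) ∧ n ∉ B := by
    filter_upwards [hn, h.2] with y hy hy'
    have h4 := Setup.mm_mem hy'
    rw [hy] at h4
    exact h4
  have h5 : n ∈ Pred U Φ e a := ev_step (Q := fun b => n ∈ Φ e b) (h3.mono fun _ h => h.1)
  obtain ⟨_, _, h6⟩ := h3.exists
  exact h6 (by simpa using h.1 h5)

theorem mm_gt {e : ι} {B a : Finset ℕ} (h : Crit U Φ e B a) (n : ℕ) :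
    ∀ᶠ y in (U : Filter ℕ), n < mm U Φ e B (insert y a) := by
  have h1 : ∀ᶠ y in (U : Filter ℕ), ∀ i ∈ Finset.range (n + 1),
      mm U Φ e B (insert y a) ≠ i := by
    rw [Filter.eventually_all_finset]
    exact fun i _ => mm_ne' h i
  filter_upwards [h1] with y hy
  by_contra hcon
  exact hy _ (Finset.mem_range.2 (by omega)) rfl

theorem exists_setup [Countable ι] (Φ : ι → Finset ℕ → Set ℕ)
    (hΦ : ∀ e a b, EndExt a b → Φ e a ⊆ Φ e b) :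
    ∃ (U : Ultrafilter ℕ) (D : Type) (fn : D → ℕ → ℕ) (𝒜 : Set (Set ℕ)) (f : ℕ → ℕ → Fin 3),
      Setup U Φ fn 𝒜 ∧ Gen U Φ fn 𝒜 f := by
  classical
  let U : Ultrafilter ℕ := hyperfilter ℕ
  have hU : ∀ n : ℕ, ∀ᶠ y in (U : Filter ℕ), n < y := by
    intro n
    have : ∀ᶠ y in (cofinite : Filter ℕ), n < y := by
      rw [Filter.eventually_cofinite]
      refine (Set.finite_Iic n).subset ?_
      intro y hy
      simpa using hy
    exact hyperfilter_le_cofinite this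
  let 𝒟 : Set (Germ (U : Filter ℕ) ℕ) := {δ | ∃ e B a, Crit U Φ e B a ∧
    δ = ((fun y => mm U Φ e B (insert y a) : ℕ → ℕ) : Germ (U : Filter ℕ) ℕ)}
  have h𝒟 : 𝒟.Countable := by
    refine (Set.countable_range (fun p : ι × Finset ℕ × Finset ℕ =>
      ((fun y => mm U Φ p.1 p.2.1 (insert y p.2.2) : ℕ → ℕ) : Germ (U : Filter ℕ) ℕ))).mono ?_
    rintro δ ⟨e, B, a, _, rfl⟩
    exact ⟨(e, B, a), rfl⟩
  let D : Type := 𝒟
  have hDc : Countable D := h𝒟.to_subtype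
  have hrep : ∀ δ : D, ∃ h : ℕ → ℕ, (h : Germ (U : Filter ℕ) ℕ) = δ.1 := by
    rintro ⟨δ, e, B, a, _, rfl⟩
    exact ⟨_, rfl⟩
  choose fn hfn using hrep
  have d1 : ∀ (δ : D) (n : ℕ), ∀ᶠ y in (U : Filter ℕ), n < fn δ y := by
    intro δ n
    obtain ⟨e, B, a, hc, hδ⟩ := δ.2
    have h1 := (hfn δ).trans hδ
    rw [Germ.coe_eq] at h1
    filter_upwards [h1, mm_gt hc n] with y hy hy'
    rw [hy]
    exact hy'
  have d2 : ∀ δ δ' : D, δ ≠ δ' → ∀ᶠ y in (U : Filter ℕ), fn δ y ≠ fn δ' y := by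
    intro δ δ' hne
    rw [Ultrafilter.eventually_not]
    intro hcon
    apply hne
    apply Subtype.ext
    rw [← hfn δ, ← hfn δ', Germ.coe_eq]
    exact hcon
  have d3 : ∀ e B a, Crit U Φ e B a →
      ∃ δ : D, ∀ᶠ y in (U : Filter ℕ), fn δ y = mm U Φ e B (insert y a) := by
    intro e B a hc
    refine ⟨⟨_, e, B, a, hc, rfl⟩, ?_⟩
    exact Germ.coe_eq.1 (hfn _)
  -- the countable family
  let F1 : Set (Set ℕ) := Set.range (fun n : ℕ => {y | n < y})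
  let F2 : Set (Set ℕ) := Set.range (fun p : ι × ℕ × ℕ × Finset ℕ =>
    RSet U (fun b => p.2.1 ∈ Φ p.1 b ∧ p.2.2.1 ∈ Φ p.1 b) p.2.2.2)
  let F3 : Set (Set ℕ) := Set.range (fun p : ι × ℕ × Finset ℕ =>
    {y | p.2.1 ∈ Pred U Φ p.1 (insert y p.2.2)})
  let F4 : Set (Set ℕ) := Set.range (fun p : ι × Finset ℕ × Finset ℕ =>
    RSet U (fun b => ¬ Φ p.1 b ⊆ (↑p.2.1 : Set ℕ)) p.2.2)
  let F5 : Set (Set ℕ) := Set.range (fun p : ι × Finset ℕ × Finset ℕ =>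
    {y | ¬ Rk U Φ p.1 p.2.1 (insert y p.2.2)})
  let F6 : Set (Set ℕ) := Set.range (fun p : ι × Finset ℕ × Finset ℕ =>
    {y | Pred U Φ p.1 (insert y p.2.2) ⊆ (↑p.2.1 : Set ℕ)})
  let F7 : Set (Set ℕ) := Set.range (fun p : ι × Finset ℕ × Finset ℕ =>
    {y | ¬ Pred U Φ p.1 (insert y p.2.2) ⊆ (↑p.2.1 : Set ℕ)})
  let F8 : Set (Set ℕ) := Set.range (fun p : ι × Finset ℕ × Finset ℕ × ℕ =>
    {y | mm U Φ p.1 p.2.1 (insert y p.2.2.1) ≠ p.2.2.2})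
  let F9 : Set (Set ℕ) := Set.range (fun p : ι × Finset ℕ × Finset ℕ × D =>
    {y | fn p.2.2.2 y = mm U Φ p.1 p.2.1 (insert y p.2.2.1)})
  let F10 : Set (Set ℕ) := Set.range (fun p : ι × Finset ℕ × Finset ℕ × D =>
    {y | FP U Φ fn p.1 p.2.1 p.2.2.2 (insert y p.2.2.1)})
  let F11 : Set (Set ℕ) := Set.range (fun p : ι × Finset ℕ × Finset ℕ × D =>
    {y | ¬ FP U Φ fn p.1 p.2.1 p.2.2.2 (insert y p.2.2.1)})
  let G : Set (Set ℕ) := F1 ∪ F2 ∪ F3 ∪ F4 ∪ F5 ∪ F6 ∪ F7 ∪ F8 ∪ F9 ∪ F10 ∪ F11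
  have hG : G.Countable := by
    refine Set.Countable.union (Set.Countable.union (Set.Countable.union (Set.Countable.union
      (Set.Countable.union (Set.Countable.union (Set.Countable.union (Set.Countable.union
      (Set.Countable.union (Set.Countable.union ?_ ?_) ?_) ?_) ?_) ?_) ?_) ?_) ?_) ?_) ?_ <;>
    exact Set.countable_range _
  let 𝒜₀ : Set (Set ℕ) := {A | A ∈ G ∧ A ∈ U}
  have h𝒜₀ : 𝒜₀.Countable := hG.mono fun A hA => hA.1
  let 𝒜 : Set (Set ℕ) := (fun s : Set (Set ℕ) => ⋂₀ s) '' {s | s.Finite ∧ s ⊆ 𝒜₀}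
  have h𝒜 : 𝒜.Countable := (Set.countable_ofPred_finite_subset h𝒜₀).image _
  have hsub : ∀ A ∈ 𝒜, A ∈ U := by
    rintro _ ⟨s, ⟨hfin, hs⟩, rfl⟩
    have h1 : ⋂₀ s ∈ (U : Filter ℕ) := by
      rw [Filter.sInter_mem hfin]
      exact fun A hA => (hs hA).2
    exact h1
  have hinter : ∀ A ∈ 𝒜, ∀ B ∈ 𝒜, A ∩ B ∈ 𝒜 := by
    rintro _ ⟨s, ⟨hfin, hs⟩, rfl⟩ _ ⟨t, ⟨hfin', ht⟩, rfl⟩
    refine ⟨s ∪ t, ⟨hfin.union hfin', Set.union_subset hs ht⟩, ?_⟩
    exact Set.sInter_union s t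
  have hin : ∀ A, A ∈ G → A ∈ U → A ∈ 𝒜 := by
    intro A hA hAU
    refine ⟨{A}, ⟨Set.finite_singleton A, ?_⟩, Set.sInter_singleton A⟩
    rw [Set.singleton_subset_iff]
    exact ⟨hA, hAU⟩
  let 𝒪 : Set (Set ℕ) := {O | O.Infinite ∧ ∃ e a, O = Pred U Φ e a}
  have h𝒪 : 𝒪.Countable := by
    refine (Set.countable_range (fun p : ι × Finset ℕ => Pred U Φ p.1 p.2)).mono ?_
    rintro O ⟨_, e, a, rfl⟩
    exact ⟨(e, a), rfl⟩
  obtain ⟨f, hf1, hf2, hf3⟩ := exists_generic (U := U) (fn := fn) d1 d2 𝒜 h𝒜 hsub 𝒪 h𝒪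
    (fun O hO => hO.1)
  refine ⟨U, D, fn, 𝒜, f, ?_, ?_⟩
  · refine
      { hU := hU
        mono := hΦ
        sub := hsub
        inter := hinter
        c_gt := fun n => hin _ ?_ (hU n)
        c_pair := fun e z₁ z₂ a h => hin _ ?_ h
        c_pred := fun e z a h => hin _ ?_ h
        c_rk := fun e B a h => hin _ ?_ h
        c_nrk := fun e B a h => hin _ ?_ h
        c_sub := fun e B a h => hin _ ?_ h
        c_nsub := fun e B a h => hin _ ?_ h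
        c_mm := fun e B a n h => hin _ ?_ h
        c_fn := fun e B a δ h => hin _ ?_ h
        c_fp := fun e B a δ h => hin _ ?_ h
        c_nfp := fun e B a δ h => hin _ ?_ h
        d1 := d1
        d2 := d2
        d3 := d3 }
    · have : {y | n < y} ∈ F1 := ⟨n, rfl⟩
      simp only [G, Set.mem_union]; tauto
    · have : _ ∈ F2 := ⟨(e, z₁, z₂, a), rfl⟩
      simp only [G, Set.mem_union]; tauto
    · have : _ ∈ F3 := ⟨(e, z, a), rfl⟩
      simp only [G, Set.mem_union]; tauto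
    · have : _ ∈ F4 := ⟨(e, B, a), rfl⟩
      simp only [G, Set.mem_union]; tauto
    · have : _ ∈ F5 := ⟨(e, B, a), rfl⟩
      simp only [G, Set.mem_union]; tauto
    · have : _ ∈ F6 := ⟨(e, B, a), rfl⟩
      simp only [G, Set.mem_union]; tauto
    · have : _ ∈ F7 := ⟨(e, B, a), rfl⟩
      simp only [G, Set.mem_union]; tauto
    · have : _ ∈ F8 := ⟨(e, B, a, n), rfl⟩
      simp only [G, Set.mem_union]; tauto
    · have : _ ∈ F9 := ⟨(e, B, a, δ), rfl⟩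
      simp only [G, Set.mem_union]; tauto
    · have : _ ∈ F10 := ⟨(e, B, a, δ), rfl⟩
      simp only [G, Set.mem_union]; tauto
    · have : _ ∈ F11 := ⟨(e, B, a, δ), rfl⟩
      simp only [G, Set.mem_union]; tauto
  · exact ⟨hf1, hf2, fun e a h k => hf3 _ ⟨h, e, a, rfl⟩ k⟩

/-- **Theorem A.** For every countable family of monotone output maps there is a colouring
`f : [ℕ]² → 3` such that every `g : [ℕ]² → 2` has an infinite homogeneous set along which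
no output is an infinite `f`-homogeneous set. -/
theorem theoremA [Countable ι] (Φ : ι → Finset ℕ → Set ℕ)
    (hΦ : ∀ e a b, EndExt a b → Φ e a ⊆ Φ e b) :
    ∃ f : ℕ → ℕ → Fin 3, (∀ x y, f x y = f y x) ∧ ∀ g : ℕ → ℕ → Fin 2,
      ∃ H : Set ℕ, H.Infinite ∧ (∃ c : Fin 2, ∀ x ∈ H, ∀ y ∈ H, x < y → g x y = c) ∧
      ∀ e : ι, (Out Φ e H).Infinite →
        ∀ i : Fin 3, ∃ z₁ ∈ Out Φ e H, ∃ z₂ ∈ Out Φ e H, z₁ ≠ z₂ ∧ f z₁ z₂ ≠ i := by
  obtain ⟨U, D, fn, 𝒜, f, hs, hg⟩ := exists_setup Φ hΦ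
  exact ⟨f, hg.symm, fun g => main_build hs hg⟩

end setup

end Pool.Agent.H64.Soc
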