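import Pool.Agent.H64.SocFinal

set_option autoImplicit false

namespace Pool.Agent.H64.Soc

/-- codes for oracle computations with one variable oracle and a family of fixed oracles -/
inductive RCode (κ : Type) : Type
  | zero : RCode κ
  | succ : RCode κ
  | left : RCode κ
  | right : RCode κ
  | oracle : RCode κ
  | fixed : κ → RCode κ
  | pair : RCode κ → RCode κ → RCode κ
  | comp : RCode κ → RCode κ → RCode κ
  | prec : RCode κ → RCode κ → RCode κ
  | rfind : RCode κ → RCode κ

namespace RCode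

open OCode (tot Agree)

variable {κ : Type}

/-- a numerical coding, to see that there are countably many codes -/
def toNat (j : κ → ℕ) : RCode κ → ℕ
  | zero => 0
  | succ => 1
  | left => 2
  | right => 3
  | oracle => 4
  | pair a b => 5 * Nat.pair (toNat j a) (toNat j b) + 5
  | comp a b => 5 * Nat.pair (toNat j a) (toNat j b) + 6
  | prec a b => 5 * Nat.pair (toNat j a) (toNat j b) + 7
  | rfind a => 5 * toNat j a + 8
  | fixed k => 5 * j k + 9

theorem toNat_injective {j : κ → ℕ} (hj : Function.Injective j) :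
    Function.Injective (toNat j) := by
  intro a
  induction a with
  | zero => intro b h; cases b <;> simp only [toNat] at h <;> first | rfl | omega
  | succ => intro b h; cases b <;> simp only [toNat] at h <;> first | rfl | omega
  | left => intro b h; cases b <;> simp only [toNat] at h <;> first | rfl | omega
  | right => intro b h; cases b <;> simp only [toNat] at h <;> first | rfl | omega
  | oracle => intro b h; cases b <;> simp only [toNat] at h <;> first | rfl | omega
  | fixed k =>
    intro b h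
    cases b with
    | fixed k' =>
      simp only [toNat] at h
      rw [hj (by omega : j k = j k')]
    | _ => simp only [toNat] at h; omega
  | pair a₁ a₂ ih₁ ih₂ =>
    intro b h
    cases b with
    | pair b₁ b₂ =>
      simp only [toNat] at h
      have h1 : Nat.pair (toNat j a₁) (toNat j a₂) = Nat.pair (toNat j b₁) (toNat j b₂) := by
        omega
      rw [Nat.pair_eq_pair] at h1
      rw [ih₁ h1.1, ih₂ h1.2]
    | _ => simp only [toNat] at h; omega
  | comp a₁ a₂ ih₁ ih₂ =>
    intro b h
    cases b with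
    | comp b₁ b₂ =>
      simp only [toNat] at h
      have h1 : Nat.pair (toNat j a₁) (toNat j a₂) = Nat.pair (toNat j b₁) (toNat j b₂) := by
        omega
      rw [Nat.pair_eq_pair] at h1
      rw [ih₁ h1.1, ih₂ h1.2]
    | _ => simp only [toNat] at h; omega
  | prec a₁ a₂ ih₁ ih₂ =>
    intro b h
    cases b with
    | prec b₁ b₂ =>
      simp only [toNat] at h
      have h1 : Nat.pair (toNat j a₁) (toNat j a₂) = Nat.pair (toNat j b₁) (toNat j b₂) := by
        omega
      rw [Nat.pair_eq_pair] at h1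
      rw [ih₁ h1.1, ih₂ h1.2]
    | _ => simp only [toNat] at h; omega
  | rfind a ih =>
    intro b h
    cases b with
    | rfind b =>
      simp only [toNat] at h
      rw [ih (by omega : toNat j a = toNat j b)]
    | _ => simp only [toNat] at h; omega

instance [Countable κ] : Countable (RCode κ) := by
  obtain ⟨j, hj⟩ := exists_injective_nat κ
  exact (toNat_injective hj).countable

/-- evaluation relative to the fixed oracles `P` and the variable oracle `o` -/
def eval (P : κ → (ℕ →. ℕ)) (o : ℕ →. ℕ) : RCode κ → (ℕ →. ℕ)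
  | zero => fun _ => 0
  | succ => Nat.succ
  | left => fun n => (Nat.unpair n).1
  | right => fun n => (Nat.unpair n).2
  | oracle => o
  | fixed k => P k
  | pair a b => fun n => (Nat.pair <$> eval P o a n <*> eval P o b n)
  | comp a b => fun n => eval P o b n >>= eval P o a
  | prec a b => fun p =>
        let (a', n) := Nat.unpair p
        n.rec (eval P o a a') fun y IH => do
          let i ← IH
          eval P o b (Nat.pair a' (Nat.pair y i))
  | rfind a => fun a' => Nat.rfind fun n => (fun m => m = 0) <$> eval P o a (Nat.pair a' n)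

theorem exists_code {𝒞 : Set (ℕ →. ℕ)} {o f : ℕ →. ℕ} (h : Nat.RecursiveIn (insert o 𝒞) f) :
    ∃ c : RCode 𝒞, eval (fun k => k.1) o c = f := by
  induction h with
  | zero => exact ⟨zero, rfl⟩
  | succ => exact ⟨succ, rfl⟩
  | left => exact ⟨left, rfl⟩
  | right => exact ⟨right, rfl⟩
  | oracle g hg =>
    rcases hg with hg | hg
    · exact ⟨oracle, hg.symm⟩
    · exact ⟨fixed ⟨g, hg⟩, rfl⟩
  | pair _ _ ih₁ ih₂ =>
    obtain ⟨a, rfl⟩ := ih₁
    obtain ⟨b, rfl⟩ := ih₂
    exact ⟨pair a b, rfl⟩
  | comp _ _ ih₁ ih₂ =>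
    obtain ⟨a, rfl⟩ := ih₁
    obtain ⟨b, rfl⟩ := ih₂
    exact ⟨comp a b, rfl⟩
  | prec _ _ ih₁ ih₂ =>
    obtain ⟨a, rfl⟩ := ih₁
    obtain ⟨b, rfl⟩ := ih₂
    exact ⟨prec a b, rfl⟩
  | rfind _ ih =>
    obtain ⟨a, rfl⟩ := ih
    exact ⟨rfind a, rfl⟩

/-- the use principle -/
theorem use_principle (P : κ → (ℕ →. ℕ)) (h : ℕ → ℕ) (c : RCode κ) : ∀ n y, y ∈ eval P (tot h) c n →
    ∃ m, ∀ h', Agree m h h' → y ∈ eval P (tot h') c n := by
  induction c with
  | zero => intro n y hy; exact ⟨0, fun h' _ => hy⟩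
  | succ => intro n y hy; exact ⟨0, fun h' _ => hy⟩
  | left => intro n y hy; exact ⟨0, fun h' _ => hy⟩
  | right => intro n y hy; exact ⟨0, fun h' _ => hy⟩
  | oracle =>
    intro n y hy
    refine ⟨n + 1, fun h' hh => ?_⟩
    simp only [eval, tot, Part.mem_some_iff] at hy ⊢
    rw [hy, hh n (Nat.lt_succ_self n)]
  | fixed k => intro n y hy; exact ⟨0, fun h' _ => hy⟩
  | pair a b iha ihb =>
    intro n y hy
    simp only [eval, Seq.seq, Part.map_eq_map, Part.mem_bind_iff, Part.mem_map_iff] at hy
    obtain ⟨g, ⟨u, hu, rfl⟩, v, hv, rfl⟩ := hy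
    obtain ⟨m₁, h₁⟩ := iha n u hu
    obtain ⟨m₂, h₂⟩ := ihb n v hv
    refine ⟨max m₁ m₂, fun h' hh => ?_⟩
    simp only [eval, Seq.seq, Part.map_eq_map, Part.mem_bind_iff, Part.mem_map_iff]
    exact ⟨_, ⟨u, h₁ h' (hh.mono (le_max_left _ _)), rfl⟩, v,
      h₂ h' (hh.mono (le_max_right _ _)), rfl⟩
  | comp a b iha ihb =>
    intro n y hy
    obtain ⟨u, hu, hy'⟩ := Part.mem_bind_iff.1 hy
    obtain ⟨m₁, h₁⟩ := ihb n u hu
    obtain ⟨m₂, h₂⟩ := iha u y hy'
    refine ⟨max m₁ m₂, fun h' hh => ?_⟩
    exact Part.mem_bind_iff.2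
      ⟨u, h₁ h' (hh.mono (le_max_left _ _)), h₂ h' (hh.mono (le_max_right _ _))⟩
  | prec a b iha ihb =>
    intro p
    simp only [eval]
    generalize hp : (Nat.unpair p) = q
    obtain ⟨a', n⟩ := q
    simp only
    induction n with
    | zero =>
      intro y hy
      exact iha a' y hy
    | succ n ih =>
      intro y hy
      -- the inner induction is on the recursion variable
      have key : ∀ (n : ℕ) (y : ℕ), y ∈ (Nat.rec (eval P (tot h) a a') (fun y IH => do
          let i ← IH
          eval P (tot h) b (Nat.pair a' (Nat.pair y i))) n : Part ℕ) →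
          ∃ m, ∀ h', Agree m h h' → y ∈ (Nat.rec (eval P (tot h') a a') (fun y IH => do
          let i ← IH
          eval P (tot h') b (Nat.pair a' (Nat.pair y i))) n : Part ℕ) := by
        intro n
        induction n with
        | zero => intro y hy; exact iha a' y hy
        | succ n ih =>
          intro y hy
          simp only [Part.bind_eq_bind, Part.mem_bind_iff] at hy
          obtain ⟨u, hu, hy⟩ := hy
          obtain ⟨m₁, h₁⟩ := ih u hu
          obtain ⟨m₂, h₂⟩ := ihb _ y hy
          refine ⟨max m₁ m₂, fun h' hh => ?_⟩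
          simp only [Part.bind_eq_bind, Part.mem_bind_iff]
          exact ⟨u, h₁ h' (hh.mono (le_max_left _ _)), h₂ h' (hh.mono (le_max_right _ _))⟩
      exact key (n + 1) y hy
  | rfind a iha =>
    intro n y hy
    let S : (ℕ → ℕ) → (ℕ →. Bool) := fun h k =>
      Part.map (fun m => decide (m = 0)) (eval P (tot h) a (Nat.pair n k))
    have hy0 : y ∈ Nat.rfind (S h) := hy
    obtain ⟨hy1, hy2⟩ := Nat.mem_rfind.1 hy0
    have key : ∀ (k : ℕ) (b : Bool), b ∈ S h k →
        ∃ m, ∀ h', Agree m h h' → b ∈ S h' k := by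
      intro k b hb
      have hb' : b ∈ Part.map (fun m => decide (m = 0)) (eval P (tot h) a (Nat.pair n k)) := hb
      rw [Part.mem_map_iff] at hb'
      obtain ⟨u, hu, rfl⟩ := hb'
      obtain ⟨m, hm⟩ := iha _ u hu
      refine ⟨m, fun h' hh => ?_⟩
      change _ ∈ Part.map (fun m => decide (m = 0)) (eval P (tot h') a (Nat.pair n k))
      rw [Part.mem_map_iff]
      exact ⟨u, hm h' hh, rfl⟩
    obtain ⟨m₁, h₁⟩ := key y true hy1
    have key2 : ∀ k, k ≤ y → ∃ m, ∀ h', Agree m h h' → ∀ j, j < k → false ∈ S h' j := by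
      intro k
      induction k with
      | zero => intro _; exact ⟨0, fun _ _ j hj => absurd hj (Nat.not_lt_zero j)⟩
      | succ k ih =>
        intro hk
        obtain ⟨m, hm⟩ := ih (by omega)
        obtain ⟨m', hm'⟩ := key k false (hy2 (by omega))
        refine ⟨max m m', fun h' hh j hj => ?_⟩
        rcases Nat.lt_succ_iff_lt_or_eq.1 hj with hj | rfl
        · exact hm h' (hh.mono (le_max_left _ _)) j hj
        · exact hm' h' (hh.mono (le_max_right _ _))
    obtain ⟨m₂, h₂⟩ := key2 y le_rfl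
    refine ⟨max m₁ m₂, fun h' hh => ?_⟩
    change y ∈ Nat.rfind (S h')
    exact Nat.mem_rfind.2
      ⟨h₁ h' (hh.mono (le_max_left _ _)), fun {j} hj => h₂ h' (hh.mono (le_max_right _ _)) j hj⟩

end RCode

/-- outputs of the oracle program `c` that are already forced by the initial segment `a` -/
def phiR {κ : Type} (P : κ → (ℕ →. ℕ)) (c : RCode κ) (a : Finset ℕ) : Set ℕ :=
  {z | ∀ H : Set ℕ, (↑a : Set ℕ) ⊆ H → (∀ y ∈ H, y ∉ a → ∀ x ∈ a, x < y) →
    1 ∈ RCode.eval P (OCode.tot (Set.indicator H (fun _ => (1 : ℕ)))) c z}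

theorem phiR_mono {κ : Type} (P : κ → (ℕ →. ℕ)) (c : RCode κ) (a b : Finset ℕ)
    (hab : EndExt a b) : phiR P c a ⊆ phiR P c b := by
  intro z hz H hbH hb
  refine hz H (fun x hx => hbH (hab.1 hx)) ?_
  intro y hy hya x hx
  by_cases hyb : y ∈ b
  · exact hab.2 y hyb hya x hx
  · exact hb y hy hyb x (hab.1 hx)

theorem out_phiR {κ : Type} (P : κ → (ℕ →. ℕ)) {G H : Set ℕ} (hH : H.Infinite) {c : RCode κ}
    (hc : RCode.eval P (OCode.tot (Set.indicator H (fun _ => (1 : ℕ)))) c =
      OCode.tot (Set.indicator G (fun _ => (1 : ℕ)))) : Out (phiR P) c H = G := by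
  classical
  ext z
  constructor
  · rintro ⟨a, haH, ha, hz⟩
    have h1 := hz H haH ha
    rw [hc] at h1
    have h2 : (1 : ℕ) = Set.indicator G (fun _ => (1 : ℕ)) z := Part.mem_some_iff.1 h1
    by_contra hzG
    rw [Set.indicator_of_notMem hzG] at h2
    exact one_ne_zero h2
  · intro hz
    have h1 : (1 : ℕ) ∈ RCode.eval P (OCode.tot (Set.indicator H (fun _ => (1 : ℕ)))) c z := by
      rw [hc]
      refine Part.mem_some_iff.2 ?_
      rw [Set.indicator_of_mem hz]
    obtain ⟨m, hm⟩ := RCode.use_principle P _ c z 1 h1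
    obtain ⟨h, hhH, hmh⟩ := hH.exists_gt m
    refine ⟨(Finset.range (h + 1)).filter (fun x => x ∈ H), ?_, ?_, ?_⟩
    · intro x hx
      simp only [Finset.coe_filter, Set.mem_ofPred_eq] at hx
      exact hx.2
    · intro y hy hya x hx
      simp only [Finset.mem_filter, Finset.mem_range, not_and] at hya hx
      by_contra hcon
      exact hya (by omega) hy
    · intro H' hsub hinit
      refine hm _ ?_
      intro i hi
      have hhmem : h ∈ (Finset.range (h + 1)).filter (fun x => x ∈ H) := by
        simp [hhH]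
      by_cases hiH : i ∈ H
      · have : i ∈ H' := hsub (by
          simp only [Finset.coe_filter, Finset.mem_range, Set.mem_ofPred_eq]
          exact ⟨by omega, hiH⟩)
        rw [Set.indicator_of_mem this, Set.indicator_of_mem hiH]
      · have : i ∉ H' := by
          intro hiH'
          have := hinit i hiH' (by simp [hiH]) h hhmem
          omega
        rw [Set.indicator_of_notMem this, Set.indicator_of_notMem hiH]

/-- relative form of `core`: countably many oracles are allowed in the backward computation -/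
theorem coreRel (𝒞 : Set (ℕ →. ℕ)) (h𝒞 : 𝒞.Countable) :
    ∃ f : ℕ → ℕ → Fin 3, (∀ x y, f x y = f y x) ∧ ∀ g : ℕ → ℕ → Fin 2,
    ∃ H : Set ℕ, H.Infinite ∧ (∃ c : Fin 2, ∀ x ∈ H, ∀ y ∈ H, x < y → g x y = c) ∧
      ∀ G : Set ℕ, G.Infinite →
        RecursiveIn (insert (fun m : ℕ => Part.some (Set.indicator H (fun _ => (1 : ℕ)) m)) 𝒞)
          (fun m : ℕ => Part.some (Set.indicator G (fun _ => (1 : ℕ)) m)) →
        ∀ i : Fin 3, ∃ z₁ ∈ G, ∃ z₂ ∈ G, z₁ ≠ z₂ ∧ f z₁ z₂ ≠ i := by
  have := h𝒞.to_subtype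
  obtain ⟨f, hf, h⟩ := theoremA (phiR (fun k : 𝒞 => k.1)) (phiR_mono _)
  refine ⟨f, hf, fun g => ?_⟩
  obtain ⟨H, hH, hc, hout⟩ := h g
  refine ⟨H, hH, hc, fun G hG hred i => ?_⟩
  have hred' := RecursiveIn.iff_nat.1 hred
  obtain ⟨c, hc'⟩ := RCode.exists_code hred'
  have hGo : Out (phiR (fun k : 𝒞 => k.1)) c H = G := out_phiR _ hH hc'
  have := hout c (by rw [hGo]; exact hG) i
  rw [hGo] at this
  exact this

end Pool.Agent.H64.Soc
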