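import Pool.Agent.H64.SocWin

set_option autoImplicit false

open Filter

namespace Pool.Agent.H64.Soc

structure St (ι D : Type) where
  F : Fin 2 → Finset ℕ
  X : Set ℕ
  T : Cond D
  P : Fin 2 → Finset (ι × Finset ℕ)

structure St.Valid {ι D : Type} (U : Ultrafilter ℕ) (Φ : ι → Finset ℕ → Set ℕ)
    (fn : D → ℕ → ℕ) (𝒜 : Set (Set ℕ)) (f : ℕ → ℕ → Fin 3) (g : ℕ → ℕ → Fin 2)
    (s : St ι D) : Prop where
  hom : ∀ c, ∀ x ∈ s.F c, ∀ y ∈ s.F c, x < y → g x y = c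
  fut : ∀ c, ∀ x ∈ s.F c, ∀ y ∈ s.X, x < y ∧ g x y = c
  dense : DenseB 𝒜 f fn s.X s.T
  prom : ∀ c, ∀ q ∈ s.P c, ¬ Rk U Φ q.1 q.2 (s.F c)

def St.le {ι D : Type} (s s' : St ι D) : Prop :=
  (∀ c, EndExt (s.F c) (s'.F c)) ∧ s'.X ⊆ s.X ∧ s.T.le s'.T ∧ ∀ c, s.P c ⊆ s'.P c

theorem St.le_refl {ι D : Type} (s : St ι D) : s.le s :=
  ⟨fun _ => EndExt.refl _, subset_rfl, Cond.le_refl _, fun _ => Finset.Subset.refl _⟩

theorem St.le_trans {ι D : Type} {s s' s'' : St ι D} (h : s.le s') (h' : s'.le s'') : s.le s'' :=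
  ⟨fun c => (h.1 c).trans (h'.1 c), h'.2.1.trans h.2.1, Cond.le_trans h.2.2.1 h'.2.2.1,
    fun c => (h.2.2.2 c).trans (h'.2.2.2 c)⟩

section

variable {ι : Type} {U : Ultrafilter ℕ} {Φ : ι → Finset ℕ → Set ℕ} {D : Type}
    {fn : D → ℕ → ℕ} {𝒜 : Set (Set ℕ)} {f : ℕ → ℕ → Fin 3} {g : ℕ → ℕ → Fin 2}

/-- partition regularity of being somewhere dense -/
theorem dense_split (hs : Setup U Φ fn 𝒜) {X : Set ℕ} {T : Cond D} (h : DenseB 𝒜 f fn X T)
    (X₀ X₁ : Set ℕ) (hX : ∀ x ∈ X, x ∈ X₀ ∨ x ∈ X₁) :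
    ∃ T', T.le T' ∧ (DenseB 𝒜 f fn X₀ T' ∨ DenseB 𝒜 f fn X₁ T') := by
  by_cases h0 : DenseB 𝒜 f fn X₀ T
  · exact ⟨T, Cond.le_refl T, Or.inl h0⟩
  · unfold DenseB at h0
    push Not at h0
    obtain ⟨T', hT', A, hA, hno⟩ := h0
    refine ⟨T', hT', Or.inr ?_⟩
    intro T'' hT'' A' hA'
    obtain ⟨y, hy, hyA, hys⟩ := h T'' (Cond.le_trans hT' hT'') _ (hs.inter _ hA _ hA')
    refine ⟨y, ?_, hyA.2, hys⟩
    rcases hX y hy with h1 | h1
    · have hsat : Sat f fn T' y := by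
        intro p hp
        rw [hys p (hT''.1 hp), hT''.2 p hp]
      exact absurd hsat (hno y h1 hyA.1)
    · exact h1

/-- adding one element to one of the two sets -/
theorem one_step (hs : Setup U Φ fn 𝒜) {s : St ι D} (hv : s.Valid U Φ fn 𝒜 f g) (k : Fin 3)
    (A : Set ℕ) (hA : A ∈ 𝒜) (E : ℕ → Finset (ℕ × D))
    (hE : ∀ y ∈ A, Sat f fn s.T y → (∀ c, ∀ x ∈ s.F c, x < y) →
      ∀ p ∈ E y, p ∈ s.T.dom → s.T.col p = k) :
    ∃ y ∈ A, Sat f fn s.T y ∧ (∀ c, ∀ x ∈ s.F c, x < y) ∧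
      ∃ c : Fin 2, ∃ s' : St ι D, s'.Valid U Φ fn 𝒜 f g ∧ s.le s' ∧
        s'.F c = insert y (s.F c) ∧ (∀ c', c' ≠ c → s'.F c' = s.F c') ∧
        (∀ p ∈ E y, p ∈ s'.T.dom ∧ s'.T.col p = k) := by
  classical
  -- promises
  have hP : ∀ c : Fin 2, ∃ A' ∈ 𝒜, ∀ y ∈ A', ∀ q ∈ s.P c, ¬ Rk U Φ q.1 q.2 (insert y (s.F c)) := by
    intro c
    exact hs.inter_fin (s.P c) (fun q y => ¬ Rk U Φ q.1 q.2 (insert y (s.F c)))
      (fun q hq => hs.c_nrk q.1 q.2 (s.F c) (not_ev_succ (hv.prom c q hq)))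
  choose AP hAP hAP' using hP
  obtain ⟨y, hyX, ⟨hyA, hy0, hy1⟩, hys⟩ := hv.dense s.T (Cond.le_refl _) _
    (hs.inter _ hA _ (hs.inter _ (hAP 0) _ (hAP 1)))
  have hyP : ∀ c : Fin 2, ∀ q ∈ s.P c, ¬ Rk U Φ q.1 q.2 (insert y (s.F c)) := by
    intro c
    fin_cases c
    · exact hAP' 0 y hy0
    · exact hAP' 1 y hy1
  have hlt : ∀ c, ∀ x ∈ s.F c, x < y := fun c x hx => (hv.fut c x hx y hyX).1
  refine ⟨y, hyA, hys, hlt, ?_⟩
  let T1 : Cond D := ⟨s.T.dom ∪ E y, fun p => if p ∈ E y then k else s.T.col p⟩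
  have hT1 : s.T.le T1 := by
    refine ⟨Finset.subset_union_left, fun p hp => ?_⟩
    by_cases hpE : p ∈ E y
    · simp only [T1, hpE, if_true]
      exact (hE y hyA hys hlt p hpE hp).symm
    · simp only [T1, hpE, if_false]
  have hT1E : ∀ p ∈ E y, p ∈ T1.dom ∧ T1.col p = k := by
    intro p hp
    exact ⟨Finset.mem_union_right _ hp, by simp only [T1, hp, if_true]⟩
  have hd1 : DenseB 𝒜 f fn (s.X ∩ {x | y < x}) T1 := by
    intro T' hT' A' hA'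
    obtain ⟨x, hx, hxA, hxs⟩ := hv.dense T' (Cond.le_trans hT1 hT') _
      (hs.inter _ (hs.c_gt y) _ hA')
    exact ⟨x, ⟨hx, hxA.1⟩, hxA.2, hxs⟩
  obtain ⟨T2, hT2, hd2⟩ := dense_split hs hd1 {x | x ∈ s.X ∧ y < x ∧ g y x = 0}
    {x | x ∈ s.X ∧ y < x ∧ g y x = 1} (by
      rintro x ⟨hx, hyx⟩
      have : g y x = 0 ∨ g y x = 1 := by
        generalize g y x = c
        fin_cases c <;> simp
      rcases this with h | h
      · exact Or.inl ⟨hx, hyx, h⟩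
      · exact Or.inr ⟨hx, hyx, h⟩)
  have key : ∃ c : Fin 2, DenseB 𝒜 f fn {x | x ∈ s.X ∧ y < x ∧ g y x = c} T2 := by
    rcases hd2 with h | h
    · exact ⟨0, h⟩
    · exact ⟨1, h⟩
  obtain ⟨c, hc⟩ := key
  refine ⟨c, ⟨fun c' => if c' = c then insert y (s.F c) else s.F c',
    {x | x ∈ s.X ∧ y < x ∧ g y x = c}, T2, s.P⟩, ?_, ?_, ?_, ?_, ?_⟩
  · refine ⟨?_, ?_, hc, ?_⟩
    · intro c' x hx z hz hxz
      by_cases hcc : c' = c
      · subst hcc
        simp only [if_true, Finset.mem_insert] at hx hz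
        rcases hx with rfl | hx
        · rcases hz with rfl | hz
          · exact absurd hxz (lt_irrefl _)
          · exact absurd (hlt _ z hz) (by omega)
        · rcases hz with rfl | hz
          · exact (hv.fut _ x hx _ hyX).2
          · exact hv.hom _ x hx z hz hxz
      · simp only [hcc, if_false] at hx hz
        exact hv.hom c' x hx z hz hxz
    · intro c' x hx z hz
      obtain ⟨hzX, hyz, hgz⟩ := hz
      by_cases hcc : c' = c
      · subst hcc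
        simp only [if_true, Finset.mem_insert] at hx
        rcases hx with rfl | hx
        · exact ⟨hyz, hgz⟩
        · exact hv.fut _ x hx z hzX
      · simp only [hcc, if_false] at hx
        exact hv.fut c' x hx z hzX
    · intro c' q hq
      by_cases hcc : c' = c
      · subst hcc
        simpa using hyP c' q hq
      · simpa [hcc] using hv.prom c' q hq
  · refine ⟨?_, fun x hx => hx.1, Cond.le_trans hT1 hT2, fun _ => Finset.Subset.refl _⟩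
    intro c'
    by_cases hcc : c' = c
    · subst hcc
      simpa using EndExt.insert (hlt c')
    · simpa [hcc] using EndExt.refl _
  · simp
  · intro c' hcc
    simp [hcc]
  · intro p hp
    obtain ⟨h1, h2⟩ := hT1E p hp
    exact ⟨hT2.1 h1, by rw [hT2.2 p h1, h2]⟩

theorem two_thread (hs : Setup U Φ fn 𝒜) (k : Fin 3) (S0 S1 : Finset ℕ → Prop)
    {a0 : Finset ℕ} {T0 : Cond D} (h0 : Win 𝒜 f fn k S0 a0 T0) :
    ∀ (a1 : Finset ℕ) (T1 : Cond D), Win 𝒜 f fn k S1 a1 T1 →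
      ∀ s : St ι D, s.Valid U Φ fn 𝒜 f g → s.F 0 = a0 → s.F 1 = a1 → T0.le s.T → T1.le s.T →
        ∃ s' : St ι D, s'.Valid U Φ fn 𝒜 f g ∧ s.le s' ∧ (S0 (s'.F 0) ∨ S1 (s'.F 1)) := by
  classical
  induction h0 with
  | done a0 T0 h =>
    intro a1 T1 _ s hv hF0 _ _ _
    exact ⟨s, hv, St.le_refl s, Or.inl (hF0 ▸ h)⟩
  | step a0 T0 A0 E0 hA0 hE0 h0 ih0 =>
    intro a1 T1 h1
    induction h1 with
    | done a1 T1 h =>
      intro s hv _ hF1 _ _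
      exact ⟨s, hv, St.le_refl s, Or.inr (hF1 ▸ h)⟩
    | step a1 T1 A1 E1 hA1 hE1 h1 ih1 =>
      intro s hv hF0 hF1 hT0 hT1
      obtain ⟨y, hy, hys, hlt, c, s', hv', hle, hFc, hFc', hEE⟩ := one_step hs hv k
        (A0 s.T ∩ A1 s.T) (hs.inter _ (hA0 _ hT0) _ (hA1 _ hT1))
        (fun y => E0 s.T y ∪ E1 s.T y) (by
          intro y hy hys hlt p hp hpd
          rw [Finset.mem_union] at hp
          rcases hp with hp | hp
          · exact hE0 s.T hT0 y hy.1 hys (hF0 ▸ hlt 0) p hp hpd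
          · exact hE1 s.T hT1 y hy.2 hys (hF1 ▸ hlt 1) p hp hpd)
      have hx0 : ∀ x ∈ a0, x < y := hF0 ▸ hlt 0
      have hx1 : ∀ x ∈ a1, x < y := hF1 ▸ hlt 1
      have hc : c = 0 ∨ c = 1 := by
        fin_cases c <;> simp
      rcases hc with rfl | rfl
      · obtain ⟨s'', hv'', hle'', hS⟩ := ih0 s.T hT0 y hy.1 hys hx0 s'.T hle.2.2.1
          (fun p hp => hEE p (Finset.mem_union_left _ hp)) a1 T1
          (.step a1 T1 A1 E1 hA1 hE1 h1) s' hv' (by rw [hFc, hF0])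
          (by rw [hFc' 1 (by decide), hF1]) (Cond.le_refl _)
          (Cond.le_trans hT1 hle.2.2.1)
        exact ⟨s'', hv'', St.le_trans hle hle'', hS⟩
      · obtain ⟨s'', hv'', hle'', hS⟩ := ih1 s.T hT1 y hy.2 hys hx1 s'.T hle.2.2.1
          (fun p hp => hEE p (Finset.mem_union_right _ hp)) s' hv'
          (by rw [hFc' 0 (by decide), hF0]) (by rw [hFc, hF1])
          (Cond.le_trans hT0 hle.2.2.1) (Cond.le_refl _)
        exact ⟨s'', hv'', St.le_trans hle hle'', hS⟩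

/-- requirements: a functional with a colour, or a size -/
def Kill {ι D : Type} (Φ : ι → Finset ℕ → Set ℕ) (f : ℕ → ℕ → Fin 3) (s : St ι D) (c : Fin 2) :
    (ι × Fin 3) ⊕ ℕ → Prop
  | Sum.inl r => (∃ z₁ ∈ Φ r.1 (s.F c), ∃ z₂ ∈ Φ r.1 (s.F c), z₁ ≠ z₂ ∧ f z₁ z₂ ≠ r.2) ∨
      ∃ B : Finset ℕ, (r.1, B) ∈ s.P c
  | Sum.inr n => n ≤ (s.F c).card

theorem Kill.mono (hs : Setup U Φ fn 𝒜) {s s' : St ι D} (h : s.le s') (c : Fin 2)
    (r : (ι × Fin 3) ⊕ ℕ) (hk : Kill Φ f s c r) : Kill Φ f s' c r := by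
  match r with
  | Sum.inl r =>
    rcases hk with ⟨z₁, h1, z₂, h2, h3⟩ | ⟨B, hB⟩
    · exact Or.inl ⟨z₁, hs.mono r.1 _ _ (h.1 c) h1, z₂, hs.mono r.1 _ _ (h.1 c) h2, h3⟩
    · exact Or.inr ⟨B, h.2.2.2 c hB⟩
  | Sum.inr n => exact le_trans hk (Finset.card_le_card (h.1 c).1)

/-- the third colour to be avoided by a requirement -/
def bad {ι : Type} : (ι × Fin 3) ⊕ ℕ → Fin 3
  | Sum.inl r => r.2
  | Sum.inr _ => 0

/-- success predicate of a requirement -/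
def SucR {ι : Type} (U : Ultrafilter ℕ) (Φ : ι → Finset ℕ → Set ℕ) (f : ℕ → ℕ → Fin 3)
    (k : Fin 3) : (ι × Fin 3) ⊕ ℕ → Finset ℕ → Prop
  | Sum.inl r => Suc U Φ f r.1 k
  | Sum.inr n => fun b => n ≤ b.card

theorem winR (hs : Setup U Φ fn 𝒜) (hg : Gen U Φ fn 𝒜 f) (k : Fin 3) (r : (ι × Fin 3) ⊕ ℕ)
    (a : Finset ℕ) (T : Cond D) : Win 𝒜 f fn k (SucR U Φ f k r) a T := by
  match r with
  | Sum.inl r => exact win_all hs hg r.1 k a T
  | Sum.inr n => exact win_card hs k n n a T (by omega)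

theorem sucR_kill {s : St ι D} (hv : s.Valid U Φ fn 𝒜 f g) {k : Fin 3} (c : Fin 2)
    (r : (ι × Fin 3) ⊕ ℕ) (hk : k ≠ bad r) (h : SucR U Φ f k r (s.F c)) :
    ∃ s' : St ι D, s'.Valid U Φ fn 𝒜 f g ∧ s.le s' ∧ Kill Φ f s' c r := by
  classical
  match r with
  | Sum.inl r =>
    rcases h with ⟨z₁, h1, z₂, h2, h3, h4⟩ | ⟨B, hB⟩
    · exact ⟨s, hv, St.le_refl s, Or.inl ⟨z₁, h1, z₂, h2, h3, by rw [h4]; exact hk⟩⟩
    · refine ⟨⟨s.F, s.X, s.T, fun c' => if c' = c then insert (r.1, B) (s.P c') else s.P c'⟩,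
        ⟨hv.hom, hv.fut, hv.dense, ?_⟩, ⟨fun _ => EndExt.refl _, subset_rfl, Cond.le_refl _, ?_⟩,
        Or.inr ⟨B, by simp⟩⟩
      · intro c' q hq
        by_cases hcc : c' = c
        · subst hcc
          simp only [if_true, Finset.mem_insert] at hq
          rcases hq with rfl | hq
          · exact hB
          · exact hv.prom _ q hq
        · simp only [hcc, if_false] at hq
          exact hv.prom _ q hq
      · intro c'
        by_cases hcc : c' = c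
        · simp [hcc]
        · simp [hcc]
  | Sum.inr n => exact ⟨s, hv, St.le_refl s, h⟩

/-- the disjunctive step -/
theorem disj_step (hs : Setup U Φ fn 𝒜) (hg : Gen U Φ fn 𝒜 f) {s : St ι D}
    (hv : s.Valid U Φ fn 𝒜 f g) (r₀ r₁ : (ι × Fin 3) ⊕ ℕ) :
    ∃ s' : St ι D, s'.Valid U Φ fn 𝒜 f g ∧ s.le s' ∧ (Kill Φ f s' 0 r₀ ∨ Kill Φ f s' 1 r₁) := by
  have hk : ∀ i j : Fin 3, ∃ k : Fin 3, k ≠ i ∧ k ≠ j := by decide
  obtain ⟨k, hk0, hk1⟩ := hk (bad r₀) (bad r₁)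
  obtain ⟨s', hv', hle, h⟩ := two_thread hs k (SucR U Φ f k r₀) (SucR U Φ f k r₁)
    (winR hs hg k r₀ (s.F 0) s.T) (s.F 1) s.T (winR hs hg k r₁ (s.F 1) s.T) s hv rfl rfl
    (Cond.le_refl _) (Cond.le_refl _)
  rcases h with h | h
  · obtain ⟨s'', hv'', hle', h'⟩ := sucR_kill hv' 0 r₀ hk0 h
    exact ⟨s'', hv'', St.le_trans hle hle', Or.inl h'⟩
  · obtain ⟨s'', hv'', hle', h'⟩ := sucR_kill hv' 1 r₁ hk1 h
    exact ⟨s'', hv'', St.le_trans hle hle', Or.inr h'⟩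

/-- outputs along an infinite set -/
def Out (Φ : ι → Finset ℕ → Set ℕ) (e : ι) (H : Set ℕ) : Set ℕ :=
  {z | ∃ a : Finset ℕ, (↑a : Set ℕ) ⊆ H ∧ (∀ y ∈ H, y ∉ a → ∀ x ∈ a, x < y) ∧ z ∈ Φ e a}

theorem main_build [Countable ι] (hs : Setup U Φ fn 𝒜) (hg : Gen U Φ fn 𝒜 f) :
    ∃ H : Set ℕ, H.Infinite ∧ (∃ c : Fin 2, ∀ x ∈ H, ∀ y ∈ H, x < y → g x y = c) ∧
      ∀ e : ι, (Out Φ e H).Infinite →
        ∀ i : Fin 3, ∃ z₁ ∈ Out Φ e H, ∃ z₂ ∈ Out Φ e H, z₁ ≠ z₂ ∧ f z₁ z₂ ≠ i := by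
  classical
  -- the colour to be used
  let s₀ : St ι D := ⟨fun _ => ∅, Set.univ, ⟨∅, fun _ => 0⟩, fun _ => ∅⟩
  have hv₀ : s₀.Valid U Φ fn 𝒜 f g := by
    refine ⟨by simp [s₀], by simp [s₀], ?_, by simp [s₀]⟩
    intro T' _ A hA
    obtain ⟨y, hy, hys⟩ := hg.g1 T' A hA
    exact ⟨y, trivial, hy, hys⟩
  have hchoice : ∃ c : Fin 2, ∃ s : St ι D, s.Valid U Φ fn 𝒜 f g ∧
      ∀ s' : St ι D, s'.Valid U Φ fn 𝒜 f g → s.le s' → ∀ r : (ι × Fin 3) ⊕ ℕ,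
        ∃ s'' : St ι D, s''.Valid U Φ fn 𝒜 f g ∧ s'.le s'' ∧ Kill Φ f s'' c r := by
    by_cases hb : ∃ s : St ι D, s.Valid U Φ fn 𝒜 f g ∧ ∃ r₀ : (ι × Fin 3) ⊕ ℕ,
        ∀ s' : St ι D, s'.Valid U Φ fn 𝒜 f g → s.le s' → ¬ Kill Φ f s' 0 r₀
    · obtain ⟨s, hv, r₀, hno⟩ := hb
      refine ⟨1, s, hv, fun s' hv' hle r => ?_⟩
      obtain ⟨s'', hv'', hle'', h⟩ := disj_step hs hg hv' r₀ r
      rcases h with h | h
      · exact absurd h (hno s'' hv'' (St.le_trans hle hle''))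
      · exact ⟨s'', hv'', hle'', h⟩
    · push Not at hb
      exact ⟨0, s₀, hv₀, fun s' hv' _ r => hb s' hv' r⟩
  obtain ⟨c, s, hv, hext⟩ := hchoice
  have : Nonempty ((ι × Fin 3) ⊕ ℕ) := ⟨Sum.inr 0⟩
  obtain ⟨enum, henum⟩ := exists_surjective_nat ((ι × Fin 3) ⊕ ℕ)
  let V := {s' : St ι D // s'.Valid U Φ fn 𝒜 f g ∧ s.le s'}
  have hnext : ∀ (n : ℕ) (v : V), ∃ w : V, v.1.le w.1 ∧ Kill Φ f w.1 c (enum n) := by
    rintro n ⟨s', hv', hle'⟩
    obtain ⟨s'', hv'', hle'', h⟩ := hext s' hv' hle' (enum n)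
    exact ⟨⟨s'', hv'', St.le_trans hle' hle''⟩, hle'', h⟩
  choose nx hnx1 hnx2 using hnext
  let seq : ℕ → V := fun n => Nat.rec ⟨s, hv, St.le_refl s⟩ (fun n v => nx n v) n
  have hseq : ∀ n, seq (n + 1) = nx n (seq n) := fun n => rfl
  have hle1 : ∀ n, (seq n).1.le (seq (n + 1)).1 := fun n => by rw [hseq]; exact hnx1 n _
  have hle : ∀ m n, m ≤ n → (seq m).1.le (seq n).1 := by
    intro m n hmn
    induction n, hmn using Nat.le_induction with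
    | base => exact St.le_refl _
    | succ n _ ih => exact St.le_trans ih (hle1 n)
  have hkill : ∀ r, ∃ n, Kill Φ f (seq n).1 c r := by
    intro r
    obtain ⟨n, hn⟩ := henum r
    refine ⟨n + 1, ?_⟩
    rw [hseq, ← hn]
    exact hnx2 n _
  let H : Set ℕ := {x | ∃ n, x ∈ (seq n).1.F c}
  have hmono : ∀ m n, m ≤ n → EndExt ((seq m).1.F c) ((seq n).1.F c) :=
    fun m n hmn => (hle m n hmn).1 c
  -- initial segments
  have hinit : ∀ n, ∀ y ∈ H, y ∉ (seq n).1.F c → ∀ x ∈ (seq n).1.F c, x < y := by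
    rintro n y ⟨m, hm⟩ hyn x hx
    rcases le_total m n with h | h
    · exact absurd ((hmono m n h).1 hm) hyn
    · exact (hmono n m h).2 y hm hyn x hx
  have hsubH : ∀ n, (↑((seq n).1.F c) : Set ℕ) ⊆ H := fun n x hx => ⟨n, hx⟩
  have hout1 : ∀ e n, Φ e ((seq n).1.F c) ⊆ Out Φ e H := fun e n z hz =>
    ⟨_, hsubH n, hinit n, hz⟩
  have hHinf : H.Infinite := by
    intro hfin
    obtain ⟨n, hn⟩ := hkill (Sum.inr (hfin.toFinset.card + 1))
    have h1 : (seq n).1.F c ⊆ hfin.toFinset := by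
      intro x hx
      rw [Set.Finite.mem_toFinset]
      exact ⟨n, hx⟩
    have h2 := Finset.card_le_card h1
    have h3 : hfin.toFinset.card + 1 ≤ ((seq n).1.F c).card := hn
    omega
  refine ⟨H, hHinf, ⟨c, ?_⟩, ?_⟩
  · rintro x ⟨m, hm⟩ y ⟨n, hn⟩ hxy
    have h1 := (hmono m (max m n) (le_max_left _ _)).1 hm
    have h2 := (hmono n (max m n) (le_max_right _ _)).1 hn
    exact (seq (max m n)).2.1.hom c x h1 y h2 hxy
  · intro e hinf i
    obtain ⟨n, hn⟩ := hkill (Sum.inl (e, i))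
    rcases hn with ⟨z₁, h1, z₂, h2, h3, h4⟩ | ⟨B, hB⟩
    · exact ⟨z₁, hout1 e n h1, z₂, hout1 e n h2, h3, h4⟩
    · exfalso
      apply hinf
      refine Set.Finite.subset B.finite_toSet ?_
      rintro z ⟨a, haH, hainit, hz⟩
      -- `a` is end-extended by some `F`
      have hex : ∃ m, n ≤ m ∧ a ⊆ (seq m).1.F c := by
        have : ∀ b : Finset ℕ, (↑b : Set ℕ) ⊆ H → ∃ m, n ≤ m ∧ b ⊆ (seq m).1.F c := by
          intro b
          induction b using Finset.induction_on with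
          | empty => exact fun _ => ⟨n, le_refl n, by simp⟩
          | insert x b _ ih =>
            intro hb
            rw [Finset.coe_insert, Set.insert_subset_iff] at hb
            obtain ⟨m, hm, hbm⟩ := ih hb.2
            obtain ⟨m', hm'⟩ := hb.1
            refine ⟨max m m', le_trans hm (le_max_left _ _), ?_⟩
            intro w hw
            rw [Finset.mem_insert] at hw
            rcases hw with rfl | hw
            · exact (hmono m' _ (le_max_right _ _)).1 hm'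
            · exact (hmono m _ (le_max_left _ _)).1 (hbm hw)
        exact this a haH
      obtain ⟨m, hnm, ham⟩ := hex
      have hEE : EndExt a ((seq m).1.F c) := ⟨ham, fun y hy hya x hx => hainit y ⟨m, hy⟩ hya x hx⟩
      have hz' := hs.mono e _ _ hEE hz
      have hprom := (seq m).2.1.prom c (e, B) ((hle n m hnm).2.2.2 c hB)
      by_contra hzB
      apply hprom
      exact ev_base (fun hsub => hzB (hsub hz'))

end

end Pool.Agent.H64.Soc
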