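import Pool.Agent.H64.SocCore

set_option autoImplicit false

open Filter

namespace Pool.Agent.H64.Soc

/-- success of the thread for the functional `e` with third colour `k` -/
def Suc {ι : Type} (U : Ultrafilter ℕ) (Φ : ι → Finset ℕ → Set ℕ) (f : ℕ → ℕ → Fin 3)
    (e : ι) (k : Fin 3) (a : Finset ℕ) : Prop :=
  (∃ z₁ ∈ Φ e a, ∃ z₂ ∈ Φ e a, z₁ ≠ z₂ ∧ f z₁ z₂ = k) ∨ ∃ B : Finset ℕ, ¬ Rk U Φ e B a

section

variable {ι : Type} {U : Ultrafilter ℕ} {Φ : ι → Finset ℕ → Set ℕ} {D : Type}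
    {fn : D → ℕ → ℕ} {𝒜 : Set (Set ℕ)} {f : ℕ → ℕ → Fin 3}

theorem win_pair (hs : Setup U Φ fn 𝒜) {e : ι} {k : Fin 3} {z₁ z₂ : ℕ} (hne : z₁ ≠ z₂)
    (hk : f z₁ z₂ = k) {a : Finset ℕ} (h1 : z₁ ∈ Pred U Φ e a) (h2 : z₂ ∈ Pred U Φ e a)
    (T : Cond D) : Win 𝒜 f fn k (Suc U Φ f e k) a T := by
  have hp : ∀ z : ℕ, ∀ a, z ∈ Φ e a → ∀ᶠ y in (U : Filter ℕ), z ∈ Φ e (insert y a) := by
    intro z a hz
    filter_upwards [hs.phi_succ e a] with y hy
    exact hy hz
  have h3 := ev_of_pair (Q := fun b => z₁ ∈ Φ e b) (R := fun b => z₂ ∈ Φ e b) (hp z₁) (hp z₂) a h1 h2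
  revert T
  refine ev_rec (M := fun a => ∀ T : Cond D, Win 𝒜 f fn k (Suc U Φ f e k) a T) ?_ ?_ a h3
  · rintro a ⟨h4, h5⟩ T
    exact .done a T (Or.inl ⟨z₁, h4, z₂, h5, hne, hk⟩)
  · intro a _ hm ih T
    refine Win.mk0 fun T' _ => ⟨_, hs.c_pair e z₁ z₂ a hm, fun y hy _ _ T'' _ => ?_⟩
    exact (ih y hy).2 T''

theorem win_phase1 (hs : Setup U Φ fn 𝒜) {e : ι} {k : Fin 3} {z₁ : ℕ} {B : Finset ℕ}
    (hz : z₁ ∈ B) {a : Finset ℕ} (hR : Rk U Φ e B a) :
    ∀ T : Cond D, z₁ ∈ Pred U Φ e a → Pred U Φ e a ⊆ ↑B →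
      (∀ δ : D, FP U Φ fn e B δ a → (z₁, δ) ∈ T.dom ∧ T.col (z₁, δ) = k) →
      Win 𝒜 f fn k (Suc U Φ f e k) a T := by
  classical
  refine ev_rec (M := fun a => ∀ T : Cond D, z₁ ∈ Pred U Φ e a → Pred U Φ e a ⊆ ↑B →
      (∀ δ : D, FP U Φ fn e B δ a → (z₁, δ) ∈ T.dom ∧ T.col (z₁, δ) = k) →
      Win 𝒜 f fn k (Suc U Φ f e k) a T) ?_ ?_ a hR
  · intro a h1 T _ h2 _
    exact absurd ((hs.phi_sub_pred e a).trans h2) h1
  · intro a hna hm ih T hz₁ hB hI
    have hAr := hs.c_rk e B a hm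
    have hAz := hs.c_pred e z₁ a (hs.pred_succ hz₁)
    by_cases hc : Crit U Φ e B a
    · obtain ⟨δ, hδ⟩ := hs.d3 e B a hc
      have hFP : FP U Φ fn e B δ a := ev_base ⟨hc, hδ⟩
      obtain ⟨hd, hcol⟩ := hI δ hFP
      have hA1 := hs.c_fn e B a δ hδ
      have hA2 := hs.c_nsub e B a hc.2
      refine Win.mk0 fun T' hT' => ⟨_, hs.inter _ hA1 _ (hs.inter _ hA2 _ hAz), ?_⟩
      rintro y ⟨hy1, hy2, hy3⟩ hsat _ T'' _
      have h4 : f z₁ (fn δ y) = k := by
        have := hsat (z₁, δ) (hT'.1 hd)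
        rw [hT'.2 _ hd, hcol] at this
        exact this
      have hy1' : fn δ y = mm U Φ e B (insert y a) := hy1
      rw [hy1'] at h4
      obtain ⟨h5, h6⟩ := Setup.mm_mem (U := U) (Φ := Φ) hy2
      have hne : z₁ ≠ mm U Φ e B (insert y a) := fun h => h6 (h ▸ hz)
      exact win_pair hs hne h4 hy3 h5 T''
    · have hns : ∀ᶠ y in (U : Filter ℕ), Pred U Φ e (insert y a) ⊆ ↑B := by
        by_contra hcon
        rw [← Ultrafilter.eventually_not] at hcon
        exact hc ⟨hB, hcon⟩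
      have hAs := hs.c_sub e B a hns
      by_cases hex : ∃ δ : D, FP U Φ fn e B δ a
      · obtain ⟨δ, hδ⟩ := hex
        obtain ⟨hd, hcol⟩ := hI δ hδ
        have hfs : ∀ᶠ y in (U : Filter ℕ), FP U Φ fn e B δ (insert y a) := by
          have h1 := rset_mem hδ (fun h => hc h.1)
          filter_upwards [h1] with y hy
          obtain ⟨β, _, hβ⟩ := hy
          exact ⟨β, hβ⟩
        have hAf := hs.c_fp e B a δ hfs
        refine Win.mk0 fun T' hT' => ⟨_, hs.inter _ hAr _ (hs.inter _ hAz _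
          (hs.inter _ hAs _ hAf)), ?_⟩
        rintro y ⟨hy1, hy2, hy3, hy4⟩ _ _ T'' hT''
        refine (ih y hy1).2 T'' hy2 hy3 ?_
        intro δ' hδ'
        have : δ = δ' := hs.fp_unique _ hy4 hδ'
        subst this
        have hle := Cond.le_trans hT' hT''
        exact ⟨hle.1 hd, by rw [hle.2 _ hd, hcol]⟩
      · push Not at hex
        refine Win.mk fun T' hT' => ?_
        obtain ⟨A4, hA4, hA4'⟩ := hs.inter_fin T'.dom
          (fun p y => ¬ FP U Φ fn e B p.2 (insert y a))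
          (fun p _ => hs.c_nfp e B a p.2 (not_ev_succ (hex p.2)))
        refine ⟨_, hs.inter _ hAr _ (hs.inter _ hAz _ (hs.inter _ hAs _ hA4)), ?_⟩
        rintro y ⟨hy1, hy2, hy3, hy4⟩ _ _
        by_cases hex2 : ∃ δ : D, FP U Φ fn e B δ (insert y a)
        · obtain ⟨δ₀, hδ₀⟩ := hex2
          refine ⟨{(z₁, δ₀)}, ?_, ?_⟩
          · intro p hp hpd
            rw [Finset.mem_singleton] at hp
            subst hp
            exact absurd hδ₀ (hA4' y hy4 _ hpd)
          · intro T'' _ hE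
            refine (ih y hy1).2 T'' hy2 hy3 ?_
            intro δ' hδ'
            have : δ₀ = δ' := hs.fp_unique _ hδ₀ hδ'
            subst this
            exact hE _ (Finset.mem_singleton_self _)
        · push Not at hex2
          refine ⟨∅, by simp, fun T'' _ _ => (ih y hy1).2 T'' hy2 hy3 ?_⟩
          intro δ' hδ'
          exact absurd hδ' (hex2 δ')

theorem win_phase0 (hs : Setup U Φ fn 𝒜) (hg : Gen U Φ fn 𝒜 f) {e : ι} {k : Fin 3}
    {B : Finset ℕ} {a : Finset ℕ} (hR : Rk U Φ e B a) :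
    Pred U Φ e a ⊆ ↑B → ∀ T : Cond D, Win 𝒜 f fn k (Suc U Φ f e k) a T := by
  classical
  refine ev_rec (M := fun a => Pred U Φ e a ⊆ ↑B → ∀ T : Cond D,
      Win 𝒜 f fn k (Suc U Φ f e k) a T) ?_ ?_ a hR
  · intro a h1 h2 T
    exact absurd ((hs.phi_sub_pred e a).trans h2) h1
  · intro a hna hm ih hB T
    have hAr := hs.c_rk e B a hm
    by_cases hc : Crit U Φ e B a
    · refine Win.mk fun T' hT' => ?_
      have hA1 := hs.c_nsub e B a hc.2
      obtain ⟨A2, hA2, hA2'⟩ := hs.inter_fin T'.dom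
        (fun p y => mm U Φ e B (insert y a) ≠ p.1)
        (fun p _ => hs.c_mm e B a p.1 (hs.mm_ne hc p.1))
      refine ⟨_, hs.inter _ hA1 _ hA2, ?_⟩
      rintro y ⟨hy1, hy2⟩ _ _
      obtain ⟨h5, h6⟩ := Setup.mm_mem (U := U) (Φ := Φ) hy1
      by_cases hun : ∃ B' : Finset ℕ, ¬ Rk U Φ e B' (insert y a)
      · exact ⟨∅, by simp, fun T'' _ _ => .done _ _ (Or.inr hun)⟩
      · push Not at hun
        by_cases hinf : (Pred U Φ e (insert y a)).Infinite
        · obtain ⟨w₁, hw₁, w₂, hw₂, hw, hwk⟩ := hg.g2 e _ hinf k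
          exact ⟨∅, by simp, fun T'' _ _ => win_pair hs hw hwk hw₁ hw₂ T''⟩
        · rw [Set.not_infinite] at hinf
          set B₁ := hinf.toFinset with hB₁
          have hsub : Pred U Φ e (insert y a) ⊆ ↑B₁ := by simp [hB₁]
          have hz₁ : mm U Φ e B (insert y a) ∈ B₁ := by simpa [hB₁] using h5
          by_cases hex2 : ∃ δ : D, FP U Φ fn e B₁ δ (insert y a)
          · obtain ⟨δ₀, hδ₀⟩ := hex2
            refine ⟨{(mm U Φ e B (insert y a), δ₀)}, ?_, ?_⟩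
            · intro p hp hpd
              rw [Finset.mem_singleton] at hp
              have := hA2' y hy2 p hpd
              rw [hp] at this
              exact absurd rfl this
            · intro T'' _ hE
              refine win_phase1 hs hz₁ (hun B₁) T'' h5 hsub ?_
              intro δ' hδ'
              have : δ₀ = δ' := hs.fp_unique _ hδ₀ hδ'
              subst this
              exact hE _ (Finset.mem_singleton_self _)
          · push Not at hex2
            refine ⟨∅, by simp, fun T'' _ _ => win_phase1 hs hz₁ (hun B₁) T'' h5 hsub ?_⟩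
            intro δ' hδ'
            exact absurd hδ' (hex2 δ')
    · have hns : ∀ᶠ y in (U : Filter ℕ), Pred U Φ e (insert y a) ⊆ ↑B := by
        by_contra hcon
        rw [← Ultrafilter.eventually_not] at hcon
        exact hc ⟨hB, hcon⟩
      have hAs := hs.c_sub e B a hns
      refine Win.mk0 fun T' _ => ⟨_, hs.inter _ hAr _ hAs, ?_⟩
      rintro y ⟨hy1, hy2⟩ _ _ T'' _
      exact (ih y hy1).2 hy2 T''

theorem win_all (hs : Setup U Φ fn 𝒜) (hg : Gen U Φ fn 𝒜 f) (e : ι) (k : Fin 3)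
    (a : Finset ℕ) (T : Cond D) : Win 𝒜 f fn k (Suc U Φ f e k) a T := by
  by_cases hun : ∃ B' : Finset ℕ, ¬ Rk U Φ e B' a
  · exact .done _ _ (Or.inr hun)
  · push Not at hun
    by_cases hinf : (Pred U Φ e a).Infinite
    · obtain ⟨w₁, hw₁, w₂, hw₂, hw, hwk⟩ := hg.g2 e _ hinf k
      exact win_pair hs hw hwk hw₁ hw₂ T
    · rw [Set.not_infinite] at hinf
      exact win_phase0 hs hg (hun hinf.toFinset) (by simp) T

/-- the thread for the requirement `card ≥ n` -/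
theorem win_card (hs : Setup U Φ fn 𝒜) (k : Fin 3) (n : ℕ) :
    ∀ (m : ℕ) (a : Finset ℕ) (T : Cond D), n ≤ a.card + m →
      Win 𝒜 f fn k (fun b => n ≤ b.card) a T := by
  intro m
  induction m with
  | zero => intro a T h; exact .done _ _ (by simpa using h)
  | succ m ih =>
    intro a T h
    refine Win.mk0 fun T' _ => ⟨_, hs.c_gt 0, fun y _ _ hx T'' _ => ih _ _ ?_⟩
    have hya : y ∉ a := fun h => lt_irrefl _ (hx y h)
    rw [Finset.card_insert_of_notMem hya]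
    omega

end

end Pool.Agent.H64.Soc
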